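import Mathlib

/-!
Definitions for the orbit growth problem on the once punctured torus
`S = (ℝ/ℤ × ℝ/ℤ) ∖ {0}`.
-/

namespace Pool.Agent.P992.T

noncomputable section

/-- The once punctured torus. -/
abbrev S : Type := {p : UnitAddCircle × UnitAddCircle // p ≠ 0}

/-- Closed curves on `S`. -/
abbrev Curve : Type := C(UnitAddCircle, S)

/-- The curve `γ` traversed `k` times (backwards if `k < 0`). -/
def pw (k : ℤ) (γ : Curve) : Curve := γ.comp ⟨fun t => k • t, continuous_zsmul k⟩

/-- The unoriented free homotopy class of `γ`. -/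
def cls (γ : Curve) : Set Curve := {δ | δ.Homotopic γ ∨ δ.Homotopic (pw (-1) γ)}

/-- The self-intersections of `γ`, counted with multiplicity: unordered pairs of distinct
parameters with the same image. -/
def dbl (γ : Curve) : Set (ℝ × ℝ) := {p | 0 ≤ p.1 ∧ p.1 < p.2 ∧ p.2 < 1 ∧ γ p.1 = γ p.2}

/-- The self-intersection number: least number of self-intersections over all representatives of
the class of `γ`. -/
def SI (γ : Curve) : ℕ∞ := ⨅ δ ∈ cls γ, (dbl δ).encard

theorem half_ne : ((1 / 2 : ℝ) : UnitAddCircle) ≠ 0 := fun h => by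
  have := (AddCircle.coe_eq_zero_iff_of_mem_Ico (p := 1) (a := 1 / 2) (by norm_num)).1 h
  norm_num at this

theorem half_add : ((1 / 2 + 1 : ℝ) : UnitAddCircle) = (1 / 2 : ℝ) := AddCircle.coe_add_period 1 _

/-- The base point `(1/2, 1/2)`. -/
def base : S := ⟨((1 / 2 : ℝ), (1 / 2 : ℝ)), fun h => half_ne (congrArg Prod.fst h)⟩

/-- The loop `a`: `t ↦ (1/2 + t, 1/2)`. -/
def loopA : Path base base where
  toFun t := ⟨((1 / 2 + t : ℝ), (1 / 2 : ℝ)), fun h => half_ne (congrArg Prod.snd h)⟩
  continuous_toFun := Continuous.subtype_mk (by fun_prop) _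
  source' := Subtype.ext (Prod.ext (by simp [base]) rfl)
  target' := Subtype.ext (Prod.ext half_add rfl)

/-- The loop `b`: `t ↦ (1/2, 1/2 + t)`. -/
def loopB : Path base base where
  toFun t := ⟨((1 / 2 : ℝ), (1 / 2 + t : ℝ)), fun h => half_ne (congrArg Prod.fst h)⟩
  continuous_toFun := Continuous.subtype_mk (by fun_prop) _
  source' := Subtype.ext (Prod.ext rfl (by simp [base]))
  target' := Subtype.ext (Prod.ext rfl half_add)

/-- The four letters. -/
inductive Lt : Type
  | a | b | A | B

/-- The loop of a letter: `A` and `B` are `a` and `b` traversed backwards. -/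
def Lt.loop : Lt → Path base base
  | .a => loopA
  | .b => loopB
  | .A => loopA.symm
  | .B => loopB.symm

/-- The loop of a word: the concatenation of the loops of its letters. -/
def wordPath : List Lt → Path base base
  | [] => Path.refl base
  | z :: w => z.loop.trans (wordPath w)

/-- The closed curve traced out by a loop. -/
def toCurve (p : Path base base) : Curve :=
  ⟨AddCircle.liftIco 1 0 p.extend,
    AddCircle.liftIco_zero_continuous (by simp) p.continuous_extend.continuousOn⟩

/-- Word length of a class: the number of letters of a shortest word representing it. -/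
def wl (β : Set Curve) : ℕ := sInf {n | ∃ w : List Lt, w.length = n ∧ toCurve (wordPath w) ∈ β}

/-- The orbit of the class of `γ` under the homeomorphisms of `S`. -/
def orb (γ : Curve) : Set (Set Curve) := {β | ∃ f : S ≃ₜ S, β = cls ((f : C(S, S)).comp γ)}

/-- The number of classes of word length at most `l` in the orbit `O`. -/
def cnt (O : Set (Set Curve)) (l : ℕ) : ℕ := {β | β ∈ O ∧ wl β ≤ l}.ncard

/-- The class of `γ` is not a proper power. -/
def NonPower (γ : Curve) : Prop := ∀ (δ : Curve) (k : ℕ), 2 ≤ k → pw k δ ∉ cls γ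

/-- The orbits of non-power classes with self-intersection number `k`, without the orbit of the
boundary class `abAB`. -/
def Orbs (k : ℕ) : Set (Set (Set Curve)) :=
  {O | ∃ γ : Curve, NonPower γ ∧ SI γ = k ∧ O = orb γ ∧
    O ≠ orb (toCurve (wordPath [.a, .b, .A, .B]))}

end

end Pool.Agent.P992.T
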