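import Pool.Agent.P.MP_992ce1_gt.T.Sq
import Pool.Agent.P.MP_992ce1_gt.T.Defs
import Pool.Agent.P.MP_992ce1_gt.PP

/-! The universal covering `ℍ → S` with deck group `F(a,b)`. -/

open scoped MatrixGroups UpperHalfPlane
open Set Filter Topology

namespace Pool.Agent.P992.T

noncomputable section

instance : MulAction F ℍ := MulAction.compHom ℍ rho

theorem smul_def (g : F) (τ : ℍ) : g • τ = rho g • τ := rfl

instance : ContinuousConstSMul F ℍ := ⟨fun g => continuous_const_smul (rho g)⟩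

theorem free {g : F} {τ : ℍ} (h : g • τ = τ) : g = 1 := by
  obtain ⟨σ, e, he⟩ := Good.pp (ρ := rho) (by simpa [rho, a, b] using good_base)
  exact he.free h

theorem cancel {g h : F} {τ : ℍ} (e : g • τ = h • τ) : g = h := by
  rw [← inv_smul_eq_iff, smul_smul] at e
  exact (inv_mul_eq_one.1 (free e)).symm

theorem tile_aux (n : ℕ) : ∀ τ : ℍ, 1 ≤ 4 ^ n * τ.im → ∃ g : F, g • τ ∈ D := by
  induction n with
  | zero =>
    refine fun τ h => ⟨1, fun z => ?_⟩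
    rw [one_smul, qd_re]
    nlinarith [sq_nonneg (τ.re - cen z)]
  | succ n ih =>
    intro τ h
    by_cases h1 : τ ∈ D
    · exact ⟨1, by rwa [one_smul]⟩
    obtain ⟨z, hz⟩ := not_forall.1 h1
    rw [not_le] at hz
    by_cases h2 : el (inv z) • τ ∈ D
    · exact ⟨_, h2⟩
    obtain ⟨y, hy⟩ := not_forall.1 h2
    rw [not_le] at hy
    obtain ⟨c, hc, e⟩ := qd_el (inv z) τ
    have hne : y ≠ inv z := by
      rintro rfl
      rw [smul_def, e, inv_inv'] at hy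
      nlinarith
    have h3 : 4 ≤ ((el (inv z) • τ).re - cen (inv z)) ^ 2 := by
      rw [qd_re] at hy
      have h4 := sq_nonneg (el (inv z) • τ).im
      generalize (el (inv z) • τ).re = x at *
      generalize inv z = w at *
      have h5 : x - cen y < 1 := by nlinarith
      have h6 : -1 < x - cen y := by nlinarith
      rcases y with ⟨_ | _, _ | _⟩ <;> rcases w with ⟨_ | _, _ | _⟩ <;>
        simp only [cen, ne_eq, not_true_eq_false] at hne h5 h6 ⊢ <;> nlinarith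
    have h4 : ((el (inv z) • τ : ℍ) : ℂ) - cen (inv z) = -((τ : ℂ) - cen z)⁻¹ := by
      rw [smul_def, rho_el, inv_inv', one_div]
      ring
    have h5 : (el (inv z) • τ).im =
        τ.im * Complex.normSq (((el (inv z) • τ : ℍ) : ℂ) - cen (inv z)) := by
      have := congrArg Complex.im h4
      rw [h4, Complex.normSq_neg, Complex.normSq_inv]
      simpa [div_eq_mul_inv] using this
    have h6 : 4 ≤ Complex.normSq (((el (inv z) • τ : ℍ) : ℂ) - cen (inv z)) := by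
      rw [Complex.normSq_apply]
      simp only [Complex.sub_re, UpperHalfPlane.coe_re, Complex.ofReal_re]
      nlinarith [mul_self_nonneg (((el (inv z) • τ : ℍ) : ℂ) - cen (inv z)).im]
    obtain ⟨g, hg⟩ := ih (el (inv z) • τ) (by
      rw [h5]
      rw [pow_succ] at h
      nlinarith [mul_le_mul_of_nonneg_left h6 (mul_pos (pow_pos (show (0 : ℝ) < 4 by norm_num) n)
        τ.im_pos).le])
    exact ⟨g * el (inv z), by rwa [mul_smul]⟩

theorem tile (τ : ℍ) : ∃ g : F, g • τ ∈ D := by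
  obtain ⟨n, hn⟩ := pow_unbounded_of_one_lt (1 / τ.im) (show (1 : ℝ) < 4 by norm_num)
  exact tile_aux n τ ((div_lt_iff₀ τ.im_pos).1 hn).le

theorem pp_closed {σ : ℍ} (hσ : σ ∈ D) (z : Letter) (L : List Letter)
    (h : FreeGroup.IsReduced (z :: L)) : 0 ≤ qd z (FreeGroup.mk (z :: L) • σ) ∧
      (L ≠ [] → 0 < qd z (FreeGroup.mk (z :: L) • σ)) := by
  induction L generalizing z with
  | nil =>
    obtain ⟨c, hc, e⟩ := qd_el z σ
    refine ⟨?_, fun h => absurd rfl h⟩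
    change 0 ≤ qd z (rho (el z) • σ)
    rw [e]
    nlinarith [hσ (inv z)]
  | cons y L ih =>
    obtain ⟨b1, b2⟩ := FreeGroup.isReduced_cons_cons.mp h
    rw [red_iff] at b1
    rw [mk_cons z, mul_smul, smul_def]
    obtain ⟨c, hc, e⟩ := qd_el z (FreeGroup.mk (y :: L) • σ)
    have : 0 < -(c * qd (inv z) (FreeGroup.mk (y :: L) • σ)) := by
      nlinarith [qd_disj b1 (ih y b2).1]
    rw [e]
    exact ⟨this.le, fun _ => this⟩

theorem tile_eq {σ : ℍ} (hσ : σ ∈ D) {g : F} (hτ : g • σ ∈ D) :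
    g = 1 ∨ ∃ z, g = el z ∧ qd z (g • σ) = 0 := by
  cases hw : g.toWord with
  | nil => exact Or.inl (FreeGroup.toWord_eq_nil_iff.1 hw)
  | cons z L =>
    have h := pp_closed hσ z L (hw ▸ FreeGroup.isReduced_toWord)
    rw [← hw, FreeGroup.mk_toWord] at h
    refine Or.inr ⟨z, ?_, le_antisymm (hτ z) h.1⟩
    have : L = [] := by
      by_contra h1
      exact absurd (h.2 h1) (not_lt.2 (hτ z))
    rw [← FreeGroup.mk_toWord (x := g), hw, this]
    rfl

theorem qd_cont (z : Letter) : Continuous (qd z) := by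
  rw [show qd z = _ from funext (qd_re z)]
  fun_prop

theorem D_closed : IsClosed D := by
  rw [D, ofPred_forall]
  exact isClosed_iInter fun z => isClosed_le (qd_cont z) continuous_const

theorem D_nhds {τ : ℍ} (h : τ ∈ D) : ∃ g : F, D ∪ (g • ·) ⁻¹' D ∈ 𝓝 τ := by
  have ev : ∀ (y : Letter) (g : F), qd y (g • τ) < 0 → ∀ᶠ σ in 𝓝 τ, qd y (g • σ) < 0 :=
    fun y g hy => (((qd_cont y).comp (continuous_const_smul g)).tendsto τ).eventually_lt_const hy
  by_cases h1 : ∀ z, qd z τ < 0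
  · refine ⟨1, ?_⟩
    filter_upwards [eventually_all.2 fun y => ev y 1 (by rw [one_smul]; exact h1 y)] with σ hσ
    exact Or.inr fun y => (hσ y).le
  · obtain ⟨z, hz⟩ := not_forall.1 h1
    rw [not_lt] at hz
    have h2 : ∀ σ : ℍ, ∃ c : ℝ, 0 < c ∧ qd (inv z) (el (inv z) • σ) = -(c * qd z σ) := fun σ => by
      simpa only [inv_inv', smul_def] using qd_el (inv z) σ
    have h3 : 0 ≤ qd (inv z) (el (inv z) • τ) := by
      obtain ⟨c, hc, e⟩ := h2 τ
      nlinarith [h z]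
    refine ⟨el (inv z), ?_⟩
    filter_upwards [eventually_all.2 fun y : {y // z ≠ y} =>
      ev y 1 (by rw [one_smul]; exact qd_disj y.2 hz),
      eventually_all.2 fun y : {y // inv z ≠ y} => ev y _ (qd_disj y.2 h3)] with σ h4 h5
    rcases le_total (qd z σ) 0 with h6 | h6
    · refine Or.inl fun y => ?_
      by_cases e : z = y
      · rwa [← e]
      · simpa using (h4 ⟨y, e⟩).le
    · refine Or.inr fun y => ?_
      by_cases e : inv z = y
      · obtain ⟨c, hc, e'⟩ := h2 σ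
        rw [← e, e']
        nlinarith
      · exact (h5 ⟨y, e⟩).le

/-- The projection of the plane onto the torus. -/
def pr (q : ℝ × ℝ) : UnitAddCircle × UnitAddCircle := (q.1, q.2)

@[fun_prop] theorem pr_cont : Continuous pr := by
  unfold pr
  fun_prop

theorem circ_eq {x y : ℝ} (x0 : 0 ≤ x) (x1 : x ≤ 1) (y0 : 0 ≤ y) (y1 : y ≤ 1)
    (h : (x : UnitAddCircle) = y) : x = y ∨ (x = 0 ∧ y = 1) ∨ (x = 1 ∧ y = 0) := by
  obtain ⟨n, hn⟩ := AddSubgroup.mem_zmultiples_iff.1 (QuotientAddGroup.eq.1 h)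
  rw [zsmul_one] at hn
  have h1 : n ≤ 1 := by exact_mod_cast (show (n : ℝ) ≤ 1 by linarith)
  have h2 : -1 ≤ n := by exact_mod_cast (show (-1 : ℝ) ≤ n by linarith)
  interval_cases n <;> push_cast at hn
  · exact Or.inr (Or.inr ⟨by linarith, by linarith⟩)
  · exact Or.inl (by linarith)
  · exact Or.inr (Or.inl ⟨by linarith, by linarith⟩)

theorem Q_sub {q : ℝ × ℝ} (h : q ∈ Q) : q ∈ Icc (0 : ℝ) 1 ×ˢ Icc (0 : ℝ) 1 := by
  rcases h with ⟨h1, h2, h3, h4⟩ | ⟨h1, h2, h3, h4⟩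
  exacts [⟨⟨h1, h2⟩, h3.le, h4.le⟩, ⟨⟨h1.le, h2.le⟩, h3, h4⟩]

theorem pr_ne {q : ℝ × ℝ} (h : q ∈ Icc (0 : ℝ) 1 ×ˢ Icc (0 : ℝ) 1) : pr q ≠ 0 ↔ q ∈ Q := by
  obtain ⟨⟨h1, h2⟩, h3, h4⟩ := h
  have e : ∀ {x : ℝ}, 0 ≤ x → x ≤ 1 → ((x : UnitAddCircle) ≠ 0 ↔ 0 < x ∧ x < 1) := fun {x} a b => by
    refine ⟨fun h => ⟨a.lt_of_ne ?_, b.lt_of_ne ?_⟩, fun h h' => ?_⟩
    · rintro rfl
      exact h rfl
    · rintro rfl
      exact h (AddCircle.coe_period 1)
    · rcases circ_eq a b le_rfl zero_le_one h' with e | e | e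
      exacts [h.1.ne' e, h.1.ne' e.1, h.2.ne e.1]
  rw [Ne, Prod.ext_iff, not_and_or]
  refine (or_congr (e h1 h2) (e h3 h4)).trans ⟨?_, ?_⟩
  · rintro (h | h)
    exacts [Or.inr ⟨h.1, h.2, h3, h4⟩, Or.inl ⟨h1, h2, h.1, h.2⟩]
  · rintro (h | h)
    exacts [Or.inr ⟨h.2.2.1, h.2.2.2⟩, Or.inl ⟨h.1, h.2.1⟩]

theorem pr_sd (z : Letter) (u : ℝ) : pr (sd z u) = pr (sd (inv z) u) := by
  rcases z with ⟨_ | _, _ | _⟩ <;> simp [pr, sd, inv, AddCircle.coe_period]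

theorem pr_eq {q r : ℝ × ℝ} (hq : q ∈ Q) (hr : r ∈ Q) (h : pr q = pr r) :
    q = r ∨ ∃ (z : Letter) (u : Ioo (0 : ℝ) 1), q = sd z u ∧ r = sd (inv z) u := by
  obtain ⟨⟨a1, a2⟩, a3, a4⟩ := Q_sub hq
  obtain ⟨⟨b1, b2⟩, b3, b4⟩ := Q_sub hr
  obtain ⟨x, y⟩ := q
  obtain ⟨x', y'⟩ := r
  have h1 := circ_eq a1 a2 b1 b2 (congrArg Prod.fst h)
  have h2 := circ_eq a3 a4 b3 b4 (congrArg Prod.snd h)
  simp only [Q, mem_ofPred_eq] at *
  rcases h1 with rfl | ⟨rfl, rfl⟩ | ⟨rfl, rfl⟩ <;> rcases h2 with rfl | ⟨rfl, rfl⟩ | ⟨rfl, rfl⟩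
  · exact Or.inl rfl
  · exact Or.inr ⟨(true, false), ⟨x, by simpa using hq.elim (by simp) fun h => ⟨h.1, h.2.1⟩⟩,
      rfl, rfl⟩
  · exact Or.inr ⟨(true, true), ⟨x, by simpa using hq.elim (by simp) fun h => ⟨h.1, h.2.1⟩⟩,
      rfl, rfl⟩
  · exact Or.inr ⟨(false, false), ⟨y, by simpa using hq.elim (fun h => h.2.2) (by simp)⟩, rfl, rfl⟩
  · simp at hq
  · simp at hq
  · exact Or.inr ⟨(false, true), ⟨y, by simpa using hq.elim (fun h => h.2.2) (by simp)⟩, rfl, rfl⟩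
  · simp at hq
  · simp at hq

/-- The universal covering of the punctured torus. -/
def P (τ : ℍ) : S :=
  ⟨pr (hh ((tile τ).choose • τ)),
    (pr_ne (Q_sub (hh_bij.mapsTo (tile τ).choose_spec))).2 (hh_bij.mapsTo (tile τ).choose_spec)⟩

theorem pr_hh {σ τ : ℍ} (hσ : σ ∈ D) (hτ : τ ∈ D) : pr (hh τ) = pr (hh σ) ↔ ∃ g : F, g • σ = τ := by
  refine ⟨fun h => ?_, ?_⟩
  · rcases pr_eq (hh_bij.mapsTo hτ) (hh_bij.mapsTo hσ) h with e | ⟨z, u, e1, e2⟩
    · exact ⟨1, by rw [one_smul, hh_inj hτ hσ e]⟩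
    · refine ⟨el z, ?_⟩
      rw [← kk_hh hσ, ← kk_hh hτ, e1, e2, kk_sd, kk_sd]
      exact pt_map z u
  · rintro ⟨g, rfl⟩
    rcases tile_eq hσ hτ with rfl | ⟨z, rfl, h⟩
    · rw [one_smul]
    · obtain ⟨u, hu⟩ := exists_pt h
      have e : σ = pt (inv z) u := by
        rw [← pt_map, ← smul_def] at hu
        exact smul_left_cancel _ hu
      rw [hu, e, hh_pt, hh_pt, pr_sd]

theorem P_eq {σ τ : ℍ} : P τ = P σ ↔ ∃ g : F, g • σ = τ := by
  rw [Subtype.ext_iff]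
  refine (pr_hh (tile σ).choose_spec (tile τ).choose_spec).trans ⟨?_, ?_⟩
  · rintro ⟨g, hg⟩
    exact ⟨(tile τ).choose⁻¹ * g * (tile σ).choose, by rw [mul_smul, mul_smul, hg, inv_smul_smul]⟩
  · rintro ⟨g, hg⟩
    exact ⟨(tile τ).choose * g * (tile σ).choose⁻¹, by rw [mul_smul, mul_smul, inv_smul_smul, hg]⟩

theorem P_smul (g : F) (τ : ℍ) : P (g • τ) = P τ := P_eq.2 ⟨g, rfl⟩

theorem P_D {τ : ℍ} (h : τ ∈ D) : (P τ).1 = pr (hh τ) :=
  (pr_hh h (tile τ).choose_spec).2 ⟨_, rfl⟩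

theorem P_kk {q : ℝ × ℝ} (h : q ∈ Q) : (P (kk q)).1 = pr q := by
  rw [P_D (kk_mem h), hh_kk h]

theorem P_cont : Continuous P := by
  have h1 : ContinuousOn P D := by
    rw [IsInducing.subtypeVal.continuousOn_iff]
    exact (pr_cont.comp_continuousOn hh_cont).congr fun τ hτ => P_D hτ
  have h2 : ∀ τ ∈ D, ContinuousAt P τ := fun τ hτ => by
    obtain ⟨g, hg⟩ := D_nhds hτ
    refine (h1.union_of_isClosed ?_ D_closed
      (D_closed.preimage (continuous_const_smul g))).continuousAt hg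
    exact (h1.comp (continuous_const_smul g).continuousOn fun _ h => h).congr
      fun σ _ => (P_smul g σ).symm
  refine continuous_iff_continuousAt.2 fun τ => ?_
  obtain ⟨g, hg⟩ := tile τ
  have := (h2 _ hg).comp (f := (g • ·)) (continuous_const_smul g).continuousAt
  rwa [show P ∘ (g • ·) = P from funext (P_smul g)] at this

theorem P_quot : IsQuotientMap P := by
  have hk : Continuous fun q : Q => kk q := kk_cont.domRestrict
  refine IsQuotientMap.of_comp hk P_cont (IsClosedMap.isQuotientMap (fun C hC => ?_)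
    (P_cont.comp hk) fun x => ?_)
  · obtain ⟨C', hC', rfl⟩ := isClosed_induced_iff.1 hC
    have h1 : IsCompact (pr '' (C' ∩ Icc (0 : ℝ) 1 ×ˢ Icc (0 : ℝ) 1)) :=
      ((isCompact_Icc.prod isCompact_Icc).inter_left hC').image pr_cont
    convert h1.isClosed.preimage (continuous_subtype_val (p := fun p => p ≠ 0)) using 1
    ext x
    constructor
    · rintro ⟨q, hq, rfl⟩
      exact ⟨q, ⟨hq, Q_sub q.2⟩, (P_kk q.2).symm⟩
    · rintro ⟨q, hq, e⟩
      have h2 := (pr_ne hq.2).1 (e ▸ x.2)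
      exact ⟨⟨q, h2⟩, hq.1, Subtype.ext ((P_kk h2).trans e)⟩
  · obtain ⟨s, hs, e1⟩ := AddCircle.eq_coe_Ico x.1.1
    obtain ⟨t, ht, e2⟩ := AddCircle.eq_coe_Ico x.1.2
    have e : pr (s, t) = x.1 := Prod.ext e1 e2
    have h2 := (pr_ne (q := (s, t)) ⟨⟨hs.1, hs.2.le⟩, ht.1, ht.2.le⟩).1 (e ▸ x.2)
    exact ⟨⟨_, h2⟩, Subtype.ext ((P_kk h2).trans e)⟩

theorem P_disj (τ : ℍ) : ∃ U ∈ 𝓝 τ, ∀ g : F, ((g • ·) '' U ∩ U).Nonempty → g = 1 := by
  obtain ⟨c, hc⟩ := tile τ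
  obtain ⟨d, hd⟩ := D_nhds hc
  have h1 := (continuous_const_smul c).continuousAt.preimage_mem_nhds hd
  have h2 : ∀ g : F, ∃ V ∈ 𝓝 τ, g ≠ 1 → ∀ σ ∈ V, g • σ ∉ V := fun g => by
    by_cases hg : g = 1
    · exact ⟨univ, univ_mem, fun h => absurd hg h⟩
    obtain ⟨A, B, hA, hB, h3⟩ := t2_separation_nhds (fun h => hg (free h) : g • τ ≠ τ)
    exact ⟨B ∩ (g • ·) ⁻¹' A,
      inter_mem hB ((continuous_const_smul g).continuousAt.preimage_mem_nhds hA),
      fun _ σ h4 h5 => disjoint_left.1 h3 h4.2 h5.1⟩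
  choose V hV hV' using h2
  have h3 : ∀ σ ∈ (c • ·) ⁻¹' (D ∪ (d • ·) ⁻¹' D), ∃ e ∈ ({c, d * c} : Set F), e • σ ∈ D := by
    rintro σ (h | h)
    exacts [⟨c, Or.inl rfl, h⟩, ⟨d * c, Or.inr rfl, by rwa [mul_smul]⟩]
  have h4 : (image2 (· * ·) (image2 (fun e y => e⁻¹ * y) ({c, d * c} : Set F) (insert 1 (range el)))
      ({c, d * c} : Set F)).Finite :=
    ((toFinite _).image2 _ ((finite_range el).insert 1)).image2 _ (toFinite _)
  refine ⟨_, inter_mem h1 ((biInter_mem h4).2 fun g _ => hV g), ?_⟩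
  rintro g ⟨_, ⟨σ, h5, rfl⟩, h6⟩
  obtain ⟨e, he, h7⟩ := h3 _ h5.1
  obtain ⟨e', he', h8⟩ := h3 _ h6.1
  have h9 : g ∈ image2 (· * ·) (image2 (fun e y => e⁻¹ * y) ({c, d * c} : Set F)
      (insert 1 (range el))) ({c, d * c} : Set F) := by
    refine ⟨_, ⟨e', he', e' * g * e⁻¹, ?_, rfl⟩, e, he, by group⟩
    rcases tile_eq h7 (g := e' * g * e⁻¹) (by rwa [mul_smul, mul_smul, inv_smul_smul]) with
      h | ⟨z, h, -⟩
    exacts [Or.inl h, Or.inr ⟨z, h.symm⟩]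
  by_contra hg
  exact hV' g hg σ (mem_iInter₂.1 h5.2 g h9) (mem_iInter₂.1 h6.2 g h9)

theorem P_cov : IsCoveringMap P :=
  IsQuotientCoveringMap.isCoveringMap P F
    { P_quot with
      continuous_const_smul := continuous_const_smul
      apply_eq_iff_mem_orbit := P_eq
      disjoint := P_disj }

end

end Pool.Agent.P992.T
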