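import Pool.Agent.P.MP_992ce1_gt.T.Cov

/-! Free homotopy classes of closed curves on `S` are conjugacy classes of `F(a,b)`. -/

open scoped MatrixGroups UpperHalfPlane unitInterval
open Set Filter Topology

namespace Pool.Agent.P992.T

noncomputable section

/-- The curve `γ` lifts to a path from a point to its translate by `g`. -/
def Rep (g : F) (γ : Curve) : Prop := ∃ Γ : ℝ → ℍ, IsRep g Γ ∧ ∀ t : ℝ, P (Γ t) = γ t

variable {g g' : F} {γ δ : Curve} {Γ : ℝ → ℍ}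

theorem lift_unique {A : Type*} [TopologicalSpace A] [PreconnectedSpace A] {f k : A → ℍ}
    (hf : Continuous f) (hk : Continuous k) (h : ∀ a, P (f a) = P (k a)) (a₀ : A)
    (h0 : f a₀ = k a₀) (a : A) : f a = k a :=
  congrFun (P_cov.eq_of_comp_eq hf hk (funext h) a₀ h0) a

theorem lift_deck {A : Type*} [TopologicalSpace A] [PreconnectedSpace A] {f k : A → ℍ}
    (hf : Continuous f) (hk : Continuous k) (h : ∀ a, P (f a) = P (k a)) (a₀ : A) :
    ∃ c : F, ∀ a, f a = c • k a := by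
  obtain ⟨c, hc⟩ := P_eq.1 (h a₀)
  exact ⟨c, lift_unique hf (hk.const_smul c) (fun a => (h a).trans (P_smul c _).symm) a₀ hc.symm⟩

theorem exists_rep (γ : Curve) {e : ℍ} (he : P e = γ 0) :
    ∃ (g : F) (Γ : ℝ → ℍ), IsRep g Γ ∧ (∀ t : ℝ, P (Γ t) = γ t) ∧ Γ 0 = e := by
  obtain ⟨Γ, ⟨h0, h1⟩, -⟩ := P_cov.existsUnique_continuousMap_lifts
    (γ.comp ⟨((↑) : ℝ → UnitAddCircle), by fun_prop⟩) 0 e he
  have h2 : ∀ t : ℝ, P (Γ t) = γ t := congrFun h1
  obtain ⟨c, hc⟩ := lift_deck (f := fun t => Γ (t + 1)) (by fun_prop) Γ.continuous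
    (fun t => by rw [h2, h2, AddCircle.coe_add_period]) 0
  exact ⟨c, Γ, ⟨Γ.continuous, hc⟩, h2, h0⟩

theorem rep_exists (γ : Curve) : ∃ g, Rep g γ := by
  obtain ⟨e, he⟩ := P_quot.surjective (γ 0)
  obtain ⟨g, Γ, h1, h2, -⟩ := exists_rep γ he
  exact ⟨g, Γ, h1, h2⟩

theorem descend (h : IsRep g Γ) : ∃ γ : Curve, ∀ t : ℝ, P (Γ t) = γ t := by
  have h1 : Function.Periodic (fun t => P (Γ t)) 1 := fun t => by
    simp only [h.2]
    exact P_smul g _
  exact ⟨⟨h1.lift, (QuotientAddGroup.isQuotientMap_mk _).continuous_iff.2 (P_cont.comp h.1)⟩,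
    fun _ => rfl⟩

theorem Rep.conj (h : Rep g γ) (hc : IsConj g g') : Rep g' γ := by
  obtain ⟨Γ, h1, h2⟩ := h
  obtain ⟨c, rfl⟩ := isConj_iff.1 hc
  refine ⟨fun t => c • Γ t, ⟨h1.1.const_smul c, fun t => ?_⟩, fun t => (P_smul c _).trans (h2 t)⟩
  simp only [h1.2, ← smul_def, mul_smul, inv_smul_smul]

theorem Rep.isConj (h : Rep g γ) (h' : Rep g' γ) : IsConj g g' := by
  obtain ⟨Γ, h1, h2⟩ := h
  obtain ⟨Γ', h3, h4⟩ := h'
  obtain ⟨c, hc⟩ := lift_deck h3.1 h1.1 (fun t => (h4 t).trans (h2 t).symm) 0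
  have h5 := h3.2 0
  rw [hc, hc, h1.2, ← smul_def, ← smul_def, smul_smul, smul_smul] at h5
  exact isConj_iff.2 ⟨c, mul_inv_eq_iff_eq_mul.2 (cancel h5)⟩

theorem Rep.of_homotopic (h : Rep g γ) (H : γ.Homotopic δ) : Rep g δ := by
  obtain ⟨Γ, h1, h2⟩ := h
  obtain ⟨H⟩ := H
  let K : C(I × ℝ, S) := ⟨fun p => H (p.1, p.2), by fun_prop⟩
  have h3 : ∀ t, K (0, t) = P ((⟨Γ, h1.1⟩ : C(ℝ, ℍ)) t) := fun t => (H.apply_zero _).trans (h2 t).symm
  let L := P_cov.liftHomotopy K ⟨Γ, h1.1⟩ h3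
  have h4 : ∀ p, P (L p) = K p := congrFun (P_cov.liftHomotopy_lifts K _ h3)
  have h5 : ∀ t, L (0, t) = Γ t := P_cov.liftHomotopy_zero K _ h3
  refine ⟨fun t => L (1, t), ⟨by fun_prop, fun t => ?_⟩, fun t => (h4 _).trans (H.apply_one _)⟩
  refine lift_unique (f := fun s : I => L (s, t + 1)) (k := fun s : I => g • L (s, t))
    (by fun_prop) (by fun_prop) (fun s => ?_) 0 ?_ 1
  · rw [P_smul, h4, h4]
    exact congrArg (fun θ => H (s, θ)) (AddCircle.coe_add_period 1 t)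
  · simp only [h5]
    exact h1.2 t

/-- A chart of the half plane. -/
def ch (z : ℝ × ℝ) : ℍ := ⟨⟨z.1, Real.exp z.2⟩, Real.exp_pos _⟩

/-- The inverse chart. -/
def lg (τ : ℍ) : ℝ × ℝ := (τ.re, Real.log τ.im)

theorem ch_lg (τ : ℍ) : ch (lg τ) = τ :=
  UpperHalfPlane.ext (Complex.ext rfl (Real.exp_log τ.im_pos))

@[fun_prop] theorem ch_cont : Continuous ch := by
  rw [UpperHalfPlane.isEmbedding_coe.continuous_iff]
  refine Continuous.congr (f := fun z : ℝ × ℝ => (z.1 : ℂ) + Real.exp z.2 * Complex.I)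
    (by fun_prop) fun z => (Complex.mk_eq_add_mul_I _ _).symm

@[fun_prop] theorem lg_cont : Continuous lg :=
  UpperHalfPlane.continuous_re.prodMk (UpperHalfPlane.continuous_im.log fun τ => τ.im_pos.ne')

theorem Rep.homotopic (h : Rep g γ) (h' : Rep g δ) : γ.Homotopic δ := by
  obtain ⟨Γ, ⟨h1, h2⟩, h3⟩ := h
  obtain ⟨Δ, ⟨h4, h5⟩, h6⟩ := h'
  let m : I → ℝ → ℝ × ℝ := fun s t => (1 - s : ℝ) • lg (Γ t) + (s : ℝ) • lg (Δ t)
  let H : I → ℝ → S := fun s t => P (ch (m s t + t • (lg (g • ch (m s 0)) - m s 1)))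
  have hP := P_cont
  have h7 : Continuous fun p : I × ℝ => H p.1 (Int.fract p.2) :=
    ContinuousOn.comp_fract' (Continuous.continuousOn (by fun_prop)) fun s => by
      simp only [H, zero_smul, add_zero, one_smul, add_sub_cancel, ch_lg, P_smul]
  refine ⟨⟨⟨fun p => H p.1 (AddCircle.equivIco 1 0 p.2), ?_⟩, fun θ => ?_, fun θ => ?_⟩⟩
  · refine (QuotientAddGroup.isQuotientMap_mk _).continuous_lift_prod_right (h7.congr fun p => ?_)
    simp only [AddCircle.coe_equivIco_mk_apply, div_one, mul_one]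
  · have e := h2 0
    rw [zero_add, ← smul_def] at e
    simp [H, m, ch_lg, ← e, h3, AddCircle.coe_equivIco]
  · have e := h5 0
    rw [zero_add, ← smul_def] at e
    simp [H, m, ch_lg, ← e, h6, AddCircle.coe_equivIco]

theorem isRep_int (h : IsRep g Γ) (k : ℤ) (t : ℝ) : Γ (t + k) = g ^ k • Γ t := by
  induction k using Int.induction_on with
  | zero => simp
  | succ k ih =>
    rw [Int.cast_add, Int.cast_one, ← add_assoc, h.2, ih, ← smul_def, smul_smul, add_comm,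
      zpow_one_add]
  | pred k ih =>
    have := h.2 (t + (-(k : ℤ) - 1 : ℤ))
    rw [Int.cast_sub, Int.cast_one, add_assoc, sub_add_cancel, ih, ← smul_def,
      ← inv_smul_eq_iff, smul_smul] at this
    rw [Int.cast_sub, Int.cast_one, ← this, sub_eq_neg_add, zpow_add, zpow_neg_one]

theorem Rep.pw (h : Rep g γ) (k : ℤ) : Rep (g ^ k) (pw k γ) := by
  obtain ⟨Γ, h1, h2⟩ := h
  refine ⟨fun t => Γ (k * t), ⟨h1.1.comp (by fun_prop), fun t => ?_⟩, fun t => ?_⟩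
  · simp only [mul_add, mul_one]
    exact isRep_int h1 k _
  · rw [h2, ← zsmul_eq_mul]
    rfl

theorem Rep.mem_cls (h : Rep g γ) : δ ∈ cls γ ↔ ∃ g' ∈ P992.cls g, Rep g' δ := by
  have h' := h.pw (-1)
  rw [zpow_neg_one] at h'
  constructor
  · rintro (h1 | h1)
    exacts [⟨g, Or.inl (IsConj.refl g), h.of_homotopic h1.symm⟩,
      ⟨g⁻¹, Or.inr (IsConj.refl _), h'.of_homotopic h1.symm⟩]
  · rintro ⟨g', h1 | h1, h2⟩
    exacts [Or.inl (h2.homotopic (h.conj h1)), Or.inr (h2.homotopic (h'.conj h1))]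

end

end Pool.Agent.P992.T
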