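import Pool.Agent.P.MP_992ce1_gt.T.Word
import Pool.Agent.P.MP_992ce1_gt.Nielsen

/-! Homeomorphisms of `S` induce exactly the automorphisms of `F(a,b)`. -/

open scoped MatrixGroups UpperHalfPlane unitInterval
open Set Filter Topology

namespace Pool.Agent.P992.T

noncomputable section

/-- `k` is a lift of `f` that is equivariant for `φ`. -/
structure Lift (f : S → S) (k : ℍ → ℍ) (φ : F →* F) : Prop where
  cont : Continuous k
  proj : ∀ τ, P (k τ) = f (P τ)
  equi : ∀ g τ, k (g • τ) = φ g • k τ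

theorem exists_lift (f : C(S, S)) {e e' : ℍ} (h : P e' = f (P e)) :
    ∃ k φ, Lift f k φ ∧ k e = e' := by
  obtain ⟨k, ⟨h0, h1⟩, -⟩ := P_cov.existsUnique_continuousMap_lifts (f.comp ⟨P, P_cont⟩) e e' h
  have h2 : ∀ τ, P (k τ) = f (P τ) := congrFun h1
  choose φ hφ using fun g : F => lift_deck (f := fun τ => k (g • τ)) (by fun_prop) k.continuous
    (fun τ => by rw [h2, h2, P_smul]) e
  refine ⟨k, MonoidHom.mk' φ fun g g' => cancel (τ := k e) ?_, ⟨k.continuous, h2, hφ⟩, h0⟩
  rw [← hφ, mul_smul, hφ, hφ, mul_smul]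

/-- `f` induces `φ` on free homotopy classes. -/
def Ind (f : S ≃ₜ S) (φ : F → F) : Prop := ∀ g γ, Rep g γ → Rep (φ g) ((f : C(S, S)).comp γ)

theorem Lift.ind {f : S ≃ₜ S} {k : ℍ → ℍ} {φ : F →* F} (h : Lift f k φ) : Ind f φ := by
  rintro g γ ⟨Γ, h1, h2⟩
  refine ⟨fun t => k (Γ t), ⟨h.cont.comp h1.1, fun t => ?_⟩, fun t => ?_⟩
  · simp only [h1.2]
    exact h.equi g _
  · rw [h.proj, h2]
    rfl

theorem Lift.lf {f : S → S} {k : ℍ → ℍ} {φ : F →* F} (h : Lift f k φ) {e : ℍ} {g : F} {p : I → S}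
    (h' : Lf e g p) : Lf (k e) (φ g) fun t => f (p t) := by
  obtain ⟨Γ, h1⟩ := h'
  exact ⟨(Γ.map h.cont).cast rfl (h.equi g e).symm, fun t => (h.proj _).trans (congrArg f (h1 t))⟩

theorem exists_aut (f : S ≃ₜ S) : ∃ φ : MulAut F, Ind f φ := by
  obtain ⟨e', he⟩ := P_quot.surjective (f (P e0))
  obtain ⟨k, φ, h1, h2⟩ := exists_lift (f : C(S, S)) he
  obtain ⟨k', ψ, h3, h4⟩ := exists_lift (f.symm : C(S, S)) (e := e') (e' := e0)
    (by rw [he]; exact (f.symm_apply_apply _).symm)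
  have h5 : ∀ τ, k' (k τ) = τ := lift_unique (h3.cont.comp h1.cont) continuous_id
    (fun τ => by rw [h3.proj, h1.proj]; exact f.symm_apply_apply _) e0 (by rw [h2, h4])
  have h6 : ∀ τ, k (k' τ) = τ := lift_unique (h1.cont.comp h3.cont) continuous_id
    (fun τ => by rw [h1.proj, h3.proj]; exact f.apply_symm_apply _) e' (by rw [h4, h2])
  refine ⟨φ.toMulEquiv ψ (MonoidHom.ext fun g => cancel (τ := k' (k e0)) ?_)
    (MonoidHom.ext fun g => cancel (τ := k (k' e0)) ?_), Lift.ind h1⟩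
  · rw [MonoidHom.comp_apply, ← h3.equi, ← h1.equi, h5, h5, MonoidHom.id_apply]
  · rw [MonoidHom.comp_apply, ← h1.equi, ← h3.equi, h6, h6, MonoidHom.id_apply]

/-- The endomorphism `a ↦ u`, `b ↦ v` is induced by a homeomorphism. -/
def R (u v : F) : Prop := ∃ f : S ≃ₜ S, Ind f (sub2 u v)

theorem sub2_eq (φ : F →* F) : sub2 (φ a) (φ b) = φ :=
  FreeGroup.ext_hom _ _ fun i => by cases i <;> simp [sub2, a, b]

theorem sub2_a (u v : F) : sub2 u v a = u := by simp [sub2, a]

theorem sub2_b (u v : F) : sub2 u v b = v := by simp [sub2, b]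

theorem R.of_lf (f : S ≃ₜ S) {e : ℍ} {u v : F} (h1 : Lf e u fun t => f (loopA t))
    (h2 : Lf e v fun t => f (loopB t)) : R u v := by
  obtain ⟨k, φ, h3, rfl⟩ := exists_lift (f : C(S, S)) (e := e0) (e' := e) (by
    obtain ⟨Γ, h⟩ := h1
    have : P (Γ 0) = f (loopA 0) := h 0
    rwa [Γ.source, loopA.source, ← P_e0] at this)
  rw [h1.unique (h3.lf lf_a), h2.unique (h3.lf lf_b)]
  exact ⟨f, by rw [sub2_eq]; exact Lift.ind h3⟩

theorem R.comp {u v u' v' : F} (h : R u v) (h' : R u' v') : R (sub2 u v u') (sub2 u v v') := by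
  obtain ⟨f, h⟩ := h
  obtain ⟨f', h'⟩ := h'
  refine ⟨f'.trans f, fun g γ hg => ?_⟩
  have e := sub2_eq ((sub2 u v).comp (sub2 u' v'))
  rw [MonoidHom.comp_apply, MonoidHom.comp_apply, sub2_a, sub2_b] at e
  rw [e]
  exact h _ _ (h' g γ hg)

theorem R.conj {u v : F} (h : R u v) (c : F) : R (c * u * c⁻¹) (c * v * c⁻¹) := by
  obtain ⟨f, h⟩ := h
  refine ⟨f, fun g γ hg => (h g γ hg).conj (isConj_iff.2 ⟨c, ?_⟩)⟩
  have e := sub2_eq ((MulAut.conj c).toMonoidHom.comp (sub2 u v))
  simp only [MonoidHom.comp_apply, sub2_a, sub2_b, MulEquiv.coe_toMonoidHom, MulAut.conj_apply] at e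
  rw [e]
  rfl

theorem R_swap : R b a :=
  R.of_lf ((Homeomorph.prodComm _ _).subtype fun p => by simp [Prod.ext_iff, and_comm]) lf_b lf_a

theorem neg_half : -((1 / 2 : ℝ) : UnitAddCircle) = (1 / 2 : ℝ) := by
  rw [← AddCircle.coe_neg, ← AddCircle.coe_add_period 1]
  norm_num

theorem R_inv : R a⁻¹ b := by
  refine R.of_lf (((Homeomorph.neg _).prodCongr (Homeomorph.refl _)).subtype fun p => by
    simp [Prod.ext_iff]) (e := e0) ?_ ?_
  · convert lf_a.symm using 2 with t
    refine Subtype.ext (Prod.ext ?_ rfl)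
    show -((1 / 2 + t : ℝ) : UnitAddCircle) = (1 / 2 + (1 - t) : ℝ)
    rw [← AddCircle.coe_neg, ← AddCircle.coe_add_period 1, ← AddCircle.coe_add_period 1]
    congr 1
    ring
  · convert lf_b using 2 with t
    exact Subtype.ext (Prod.ext neg_half rfl)

theorem R_shear : R (a * b) b := by
  have e : b • kk (1 / 2, 0) = kk (1 / 2, 1) := el_kk (true, true) hf
  have h : ∀ t : ℝ, (t : UnitAddCircle) = (1 / 2 + t : ℝ) + ((1 / 2 : ℝ) : UnitAddCircle) :=
    fun t => by
      rw [← AddCircle.coe_add, ← AddCircle.coe_add_period 1]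
      congr 1
      ring
  refine R.of_lf ((Homeomorph.shearAddRight _).subtype fun p => by
    simp +contextual [Prod.ext_iff]) (e := kk (1 / 2, 0)) ?_ ?_
  · refine lf_two (false, true) hf (u := fun t => (1 / 2 + t, t))
      (v := fun t => (t - 1 / 2, t)) (by fun_prop) (by fun_prop) (fun t h => ?_) (fun t h => ?_)
      (fun t h => by norm_num [h, sd, inv, hf]) (by norm_num) ?_
      (fun t => Prod.ext rfl (h t)) fun t => Prod.ext (coe_sub_half t) (h t)
    · rcases h.eq_or_lt with h | h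
      · exact Or.inl (by norm_num [h])
      · exact Or.inr ⟨by linarith [t.2.1], by linarith, t.2.1, t.2.2⟩
    · rcases h.eq_or_lt with h | h
      · exact Or.inl (by norm_num [← h])
      · exact Or.inr ⟨by linarith, by linarith [t.2.2], t.2.1, t.2.2⟩
    · rw [mul_smul, e]
      norm_num [el_true, a]
  · exact lf_one (u := fun t => (1 / 2, t)) (by fun_prop)
      (fun t => Or.inr ⟨by norm_num, by norm_num, t.2.1, t.2.2⟩) rfl e.symm
      fun t => Prod.ext rfl ((h t).trans (add_comm _ _))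

theorem R.swap {u v : F} (h : R u v) : R v u := by
  simpa only [sub2_a, sub2_b] using h.comp R_swap

theorem R.inv_left {u v : F} (h : R u v) : R u⁻¹ v := by
  simpa only [map_inv, sub2_a, sub2_b] using h.comp R_inv

theorem R.inv_right {u v : F} (h : R u v) : R u v⁻¹ := h.swap.inv_left.swap

theorem R.mul {u v : F} (h : R u v) : R (u * v) v := by
  simpa only [map_mul, sub2_a, sub2_b] using h.comp R_shear

theorem R.of_pos {u v : F} (h : Pos u v) : R u v := by
  induction h with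
  | base c x y hxy =>
    refine R.conj ?_ c
    have h := R_swap
    rcases x with ⟨_ | _, _ | _⟩ <;> rcases y with ⟨_ | _, _ | _⟩ <;>
      simp only [ne_eq, not_true_eq_false] at hxy <;> simp only [el_false, el_true]
    exacts [h.swap.inv_left.inv_right, h.swap.inv_left, h.swap.inv_right, h.swap,
      h.inv_left.inv_right, h.inv_left, h.inv_right, h]
  | @stepA u v _ ih => convert (ih.swap.mul.swap).conj u using 1 <;> group
  | @stepB u v _ ih => convert ih.mul.conj v using 1 <;> group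

theorem exists_homeo (φ : MulAut F) : ∃ f : S ≃ₜ S, Ind f φ := by
  have h : R (φ a) (φ b) := by
    rcases nf_aut φ with h | h | h | h
    · exact .of_pos h
    · simpa using (R.of_pos h).inv_left
    · simpa using (R.of_pos h).inv_right
    · simpa using (R.of_pos h).inv_left.inv_right
  obtain ⟨f, hf⟩ := h
  have e := sub2_eq φ.toMonoidHom
  simp only [MulEquiv.coe_toMonoidHom] at e
  rw [e] at hf
  exact ⟨f, hf⟩

end

end Pool.Agent.P992.T
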