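import Pool.Agent.P.MP_992ce1_gt.T.Homeo
import Pool.Agent.P.MP_992ce1_gt.Many

/-! Transfer of the disproof to the punctured torus. -/

open Set Filter Topology

namespace Pool.Agent.P992.T

noncomputable section

/-- The curves represented by a set of group elements. -/
def Phi (β : Set F) : Set Curve := {γ | ∃ g ∈ β, Rep g γ}

variable {g : F} {γ : Curve}

theorem Rep.cls_eq (h : Rep g γ) : cls γ = Phi (P992.cls g) := Set.ext fun _ => h.mem_cls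

theorem Phi_inj : InjOn Phi (range P992.cls) := by
  rintro _ ⟨g, rfl⟩ _ ⟨g', rfl⟩ e
  obtain ⟨γ, h⟩ := exists_curve g
  obtain ⟨γ', h'⟩ := exists_curve g'
  ext k
  obtain ⟨δ, hk⟩ := exists_curve k
  rw [← h.mem_iff hk, ← h'.mem_iff hk, h.cls_eq, h'.cls_eq, e]

theorem orb_sub (g : F) : P992.orb g ⊆ range P992.cls := by
  rintro _ ⟨φ, rfl⟩
  exact ⟨_, rfl⟩

theorem Rep.orb_eq (h : Rep g γ) : orb γ = Phi '' P992.orb g := by
  ext β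
  constructor
  · rintro ⟨f, rfl⟩
    obtain ⟨φ, hφ⟩ := exists_aut f
    exact ⟨_, ⟨φ, rfl⟩, (hφ g γ h).cls_eq.symm⟩
  · rintro ⟨_, ⟨φ, rfl⟩, rfl⟩
    obtain ⟨f, hf⟩ := exists_homeo φ
    exact ⟨f, (hf g γ h).cls_eq.symm⟩

theorem cnt_eq (g : F) (l : ℕ) : cnt (Phi '' P992.orb g) l = P992.cnt (P992.orb g) l := by
  have h : ∀ β ∈ P992.orb g, wl (Phi β) = P992.wl β := by
    rintro _ ⟨φ, rfl⟩
    obtain ⟨γ, h⟩ := exists_curve (φ g)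
    rw [← h.cls_eq, h.wl]
  rw [cnt, P992.cnt, ← (Phi_inj.mono fun β hβ => orb_sub g hβ.1).ncard_image]
  congr 1
  ext β
  constructor
  · rintro ⟨⟨β, h1, rfl⟩, h2⟩
    exact ⟨β, ⟨h1, h β h1 ▸ h2⟩, rfl⟩
  · rintro ⟨β, ⟨h1, h2⟩, rfl⟩
    exact ⟨⟨β, h1, rfl⟩, (h β h1).symm ▸ h2⟩

theorem orb_inj {g g' : F} : Phi '' P992.orb g = Phi '' P992.orb g' ↔ P992.orb g = P992.orb g' :=
  Phi_inj.image_eq_image_iff (orb_sub g) (orb_sub g')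

theorem orb_bd : orb (toCurve (wordPath [.a, .b, .A, .B])) =
    Phi '' P992.orb (a * b * a⁻¹ * b⁻¹) := by
  rw [(rep_word _).orb_eq]
  simp only [List.map, Lt.lt, mk_cons, el_true, el_false, mk_nil, mul_one, mul_assoc, a, b]

theorem Orbs_eq (k : ℕ) : Orbs k = (Phi '' ·) '' P992.Orbs k := by
  ext O
  constructor
  · rintro ⟨γ, h1, h2, rfl, h3⟩
    obtain ⟨g, h⟩ := rep_exists γ
    rw [h.orb_eq, orb_bd, Ne, orb_inj] at h3
    exact ⟨_, ⟨g, h.nonPower.1 h1, h.SI ▸ h2, rfl, h3⟩, h.orb_eq.symm⟩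
  · rintro ⟨_, ⟨g, h1, h2, rfl, h3⟩, rfl⟩
    obtain ⟨γ, h⟩ := exists_curve g
    refine ⟨γ, h.nonPower.2 h1, h.SI.trans h2, h.orb_eq.symm, ?_⟩
    rwa [orb_bd, Ne, orb_inj]

theorem Orbs_inj (k : ℕ) : InjOn (Phi '' ·) (P992.Orbs k) := by
  rintro _ ⟨g, -, -, rfl, -⟩ _ ⟨g', -, -, rfl, -⟩ e
  exact orb_inj.1 e

theorem main : ∃ k : ℕ, ∃ hk : (Orbs k).Finite, ∀ p : Set (Set Curve) → ℝ,
    (∀ O ∈ Orbs k,
      Tendsto (fun l : ℕ => Real.pi ^ 2 * (cnt O l : ℝ) / (6 * (l : ℝ) ^ 2)) atTop (𝓝 (p O))) →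
    1 < ((Orbs k).ncard : ℝ) - ∑ O ∈ hk.toFinset, p O := by
  obtain ⟨k, hk⟩ := P992.main
  refine ⟨k, Orbs_eq k ▸ (orbs_finite k).image _, fun p hp => ?_⟩
  have h1 := hk (fun O => p (Phi '' O)) fun O hO => by
    have := hp _ (Orbs_eq k ▸ mem_image_of_mem _ hO)
    obtain ⟨g, -, -, rfl, -⟩ := hO
    simpa only [cnt_eq] using this
  rw [← finsum_mem_eq_finite_toFinset_sum] at h1 ⊢
  rw [Orbs_eq, (Orbs_inj k).ncard_image, finsum_mem_image (Orbs_inj k)]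
  linarith

end

end Pool.Agent.P992.T
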