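import Pool.Agent.P.MP_992ce1_gt.Upper

/-! The fundamental domain of the Schottky group is a square without its corners. -/

open scoped MatrixGroups UpperHalfPlane
open Set Filter Topology

namespace Pool.Agent.P992.T

noncomputable section

/-- The squared height of the four half discs. -/
def sh (x : ℝ) : ℝ :=
  max (max (max (1 - (x - 0) ^ 2) (1 - (x - 3) ^ 2)) (max (1 - (x - 6) ^ 2) (1 - (x - 9) ^ 2))) 0

/-- A clamped linear function. -/
def cl (c x : ℝ) : ℝ := max 0 (min 1 ((x - c + 1) / 2))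

/-- The horizontal coordinate. -/
def ff (x η : ℝ) : ℝ :=
  η * x - 1 / (cl 0 x + η) + cl 3 x + cl 6 x + 1 / (1 - cl 9 x + η) - 1

/-- The domain of `ff`. -/
def W (x η : ℝ) : Prop := 0 < cl 0 x + η ∧ 0 < 1 - cl 9 x + η

theorem cl_mono (c : ℝ) {x y : ℝ} (h : x ≤ y) : cl c x ≤ cl c y :=
  max_le_max le_rfl (min_le_min le_rfl (by linarith))

theorem cl_nonneg (c x : ℝ) : 0 ≤ cl c x := le_max_left _ _

theorem cl_le (c x : ℝ) : cl c x ≤ 1 := max_le zero_le_one (min_le_left _ _)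

theorem cl_zero {c x : ℝ} (h : x ≤ c - 1) : cl c x = 0 :=
  max_eq_left ((min_le_right _ _).trans (by linarith))

theorem cl_one {c x : ℝ} (h : c + 1 ≤ x) : cl c x = 1 := by
  rw [cl, min_eq_left (by linarith), max_eq_right zero_le_one]

theorem cl_mid {c x : ℝ} (h : c - 1 ≤ x) (h' : x ≤ c + 1) : cl c x = (x - c + 1) / 2 := by
  rw [cl, min_eq_right (by linarith), max_eq_right (by linarith)]

theorem cl_lt {c x y : ℝ} (h : x < y) (h1 : x < c + 1) (h2 : c - 1 < y) : cl c x < cl c y := by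
  refine lt_max_of_lt_right (max_lt (lt_min one_pos (by linarith)) (lt_min ?_ ?_)) <;>
    exact min_lt_of_right_lt (by linarith)

@[fun_prop] theorem cl_cont (c : ℝ) : Continuous (cl c) := by
  unfold cl
  fun_prop

@[fun_prop] theorem sh_cont : Continuous sh := by
  unfold sh
  fun_prop

theorem sh_nonneg (x : ℝ) : 0 ≤ sh x := le_max_right _ _

theorem le_sh (z : Letter) (x : ℝ) : 1 - (x - cen z) ^ 2 ≤ sh x := by
  rcases z with ⟨_ | _, _ | _⟩ <;> simp [sh, cen]

theorem sh_cases (x : ℝ) : sh x = 0 ∨ ∃ z, sh x = 1 - (x - cen z) ^ 2 := by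
  rcases max_choice (max (max (1 - (x - 0) ^ 2) (1 - (x - 3) ^ 2))
    (max (1 - (x - 6) ^ 2) (1 - (x - 9) ^ 2))) 0 with h | h
  · right
    rcases max_choice (max (1 - (x - 0) ^ 2) (1 - (x - 3) ^ 2))
      (max (1 - (x - 6) ^ 2) (1 - (x - 9) ^ 2)) with h1 | h1
    · rcases max_choice (1 - (x - 0) ^ 2) (1 - (x - 3) ^ 2) with h2 | h2
      · exact ⟨(false, false), h.trans (h1.trans h2)⟩
      · exact ⟨(true, false), h.trans (h1.trans h2)⟩
    · rcases max_choice (1 - (x - 6) ^ 2) (1 - (x - 9) ^ 2) with h2 | h2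
      · exact ⟨(false, true), h.trans (h1.trans h2)⟩
      · exact ⟨(true, true), h.trans (h1.trans h2)⟩
  · exact Or.inl h

theorem sh_pos {x : ℝ} (h : 0 < sh x) : ∃ z, cen z - 1 < x ∧ x < cen z + 1 := by
  rcases sh_cases x with h1 | ⟨z, h1⟩
  · linarith
  · exact ⟨z, by nlinarith, by nlinarith⟩

theorem cen_bound (z : Letter) : 0 ≤ cen z ∧ cen z ≤ 9 := by
  rcases z with ⟨_ | _, _ | _⟩ <;> norm_num [cen]

theorem W_of {x η : ℝ} (h0 : 0 ≤ η) (h : 0 < η + sh x) : W x η := by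
  rcases h0.eq_or_lt with rfl | h1
  · obtain ⟨z, h2, h3⟩ := sh_pos (by linarith)
    obtain ⟨h4, h5⟩ := cen_bound z
    have h6 := cl_lt (c := 0) (x := -1) (y := x) (by linarith) (by norm_num) (by linarith)
    have h7 := cl_lt (c := 9) (x := x) (y := 10) (by linarith) (by linarith) (by norm_num)
    exact ⟨by linarith [cl_nonneg 0 (-1)], by linarith [cl_le 9 10]⟩
  · exact ⟨by linarith [cl_nonneg 0 x], by linarith [cl_le 9 x]⟩

theorem ff_parts {x y η : ℝ} (h0 : 0 ≤ η) (hx : W x η) (hy : W y η) (h : x ≤ y) :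
    η * x ≤ η * y ∧ 1 / (cl 0 y + η) ≤ 1 / (cl 0 x + η) ∧ cl 3 x ≤ cl 3 y ∧ cl 6 x ≤ cl 6 y ∧
      1 / (1 - cl 9 x + η) ≤ 1 / (1 - cl 9 y + η) :=
  ⟨mul_le_mul_of_nonneg_left h h0, one_div_le_one_div_of_le hx.1 (by linarith [cl_mono 0 h]),
    cl_mono 3 h, cl_mono 6 h, one_div_le_one_div_of_le hy.2 (by linarith [cl_mono 9 h])⟩

theorem ff_mono {x y η : ℝ} (h0 : 0 ≤ η) (hx : W x η) (hy : W y η) (h : x ≤ y) :
    ff x η ≤ ff y η := by
  obtain ⟨h1, h2, h3, h4, h5⟩ := ff_parts h0 hx hy h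
  unfold ff
  linarith

theorem ff_lt {x y η : ℝ} (h0 : 0 ≤ η) (hx : W x η) (hy : W y η) (h : x < y)
    (hs : 0 < η + sh x ∨ 0 < η + sh y) : ff x η < ff y η := by
  obtain ⟨h1, h2, h3, h4, h5⟩ := ff_parts h0 hx hy h.le
  unfold ff
  rcases h0.eq_or_lt with rfl | h6
  · have : ∃ z, x < cen z + 1 ∧ cen z - 1 < y := by
      rcases hs with hs | hs
      · obtain ⟨z, h7, h8⟩ := sh_pos (x := x) (by linarith)
        exact ⟨z, h8, by linarith⟩
      · obtain ⟨z, h7, h8⟩ := sh_pos (x := y) (by linarith)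
        exact ⟨z, by linarith, h7⟩
    obtain ⟨z, h7, h8⟩ := this
    have h9 := cl_lt h h7 h8
    rcases z with ⟨_ | _, _ | _⟩ <;> simp only [cen] at h9
    · linarith [one_div_lt_one_div_of_lt hx.1 (show cl 0 x + 0 < cl 0 y + 0 by linarith)]
    · linarith
    · linarith
    · linarith [one_div_lt_one_div_of_lt hy.2 (show 1 - cl 9 y + 0 < 1 - cl 9 x + 0 by linarith)]
  · linarith [mul_lt_mul_of_pos_left h h6]

theorem ff_tendsto {Y : Type*} {l : Filter Y} {X η : Y → ℝ} {x₀ η₀ : ℝ} (hX : Tendsto X l (𝓝 x₀))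
    (hη : Tendsto η l (𝓝 η₀)) (h : W x₀ η₀) :
    Tendsto (fun y => ff (X y) (η y)) l (𝓝 (ff x₀ η₀)) ∧ ∀ᶠ y in l, W (X y) (η y) := by
  have hc : ∀ c, Tendsto (fun y => cl c (X y)) l (𝓝 (cl c x₀)) := fun c =>
    ((cl_cont c).tendsto _).comp hX
  have h1 := (hc 0).add hη
  have h2 := ((hc 9).const_sub 1).add hη
  exact ⟨(((((hη.mul hX).sub (tendsto_const_nhds.div h1 h.1.ne')).add (hc 3)).add (hc 6)).add
    (tendsto_const_nhds.div h2 h.2.ne')).sub_const 1,
    (h1.eventually_const_lt h.1).and (h2.eventually_const_lt h.2)⟩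

theorem ff_inv {Y : Type*} {l : Filter Y} {X η : Y → ℝ} {x₀ η₀ : ℝ} (h0 : 0 ≤ η₀)
    (hs : 0 < η₀ + sh x₀) (hη : Tendsto η l (𝓝 η₀))
    (hv : Tendsto (fun y => ff (X y) (η y)) l (𝓝 (ff x₀ η₀)))
    (hA : ∀ᶠ y in l, 0 ≤ η y ∧ W (X y) (η y)) : Tendsto X l (𝓝 x₀) := by
  have hW := W_of h0 hs
  have h1 := (ff_tendsto (l := 𝓝 x₀) (η := fun _ => η₀) tendsto_id tendsto_const_nhds hW).2
  refine tendsto_order.2 ⟨fun c hc => ?_, fun c hc => ?_⟩
  · obtain ⟨x, ⟨h2, h3⟩, h4⟩ := (((h1.and (lt_mem_nhds hc)).filter_mono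
      (nhdsWithin_le_nhds (s := Iio x₀))).and self_mem_nhdsWithin).exists
    obtain ⟨h5, h6⟩ := ff_tendsto (X := fun _ => x) tendsto_const_nhds hη h2
    filter_upwards [h5.eventually_lt hv (ff_lt h0 h2 hW h4 (Or.inr hs)), h6, hA] with y h7 h8 h9
    by_contra h10
    exact absurd (ff_mono h9.1 h9.2 h8 ((not_lt.1 h10).trans h3.le)) (not_le.2 h7)
  · obtain ⟨x, ⟨h2, h3⟩, h4⟩ := (((h1.and (gt_mem_nhds hc)).filter_mono
      (nhdsWithin_le_nhds (s := Ioi x₀))).and self_mem_nhdsWithin).exists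
    obtain ⟨h5, h6⟩ := ff_tendsto (X := fun _ => x) tendsto_const_nhds hη h2
    filter_upwards [hv.eventually_lt h5 (ff_lt h0 hW h2 h4 (Or.inl hs)), h6, hA] with y h7 h8 h9
    by_contra h10
    exact absurd (ff_mono h9.1 h8 h9.2 (h3.le.trans (not_lt.1 h10))) (not_le.2 h7)

theorem ff_surj {η : ℝ} (h : 0 < η) (v : ℝ) : ∃ x, ff x η = v := by
  have hW : ∀ x, W x η := fun x => W_of h.le (by linarith [sh_nonneg x])
  have hc : Continuous fun x => ff x η := continuous_iff_continuousAt.2 fun x =>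
    (ff_tendsto tendsto_id tendsto_const_nhds (hW x)).1
  have hb : ∀ x, η * x - 1 / η - 1 ≤ ff x η ∧ ff x η ≤ η * x + 1 / η + 1 := fun x => by
    have h1 : 1 / (cl 0 x + η) ≤ 1 / η := one_div_le_one_div_of_le h (by linarith [cl_nonneg 0 x])
    have h2 : 1 / (1 - cl 9 x + η) ≤ 1 / η := one_div_le_one_div_of_le h (by linarith [cl_le 9 x])
    have h3 := one_div_pos.2 (hW x).1
    have h4 := one_div_pos.2 (hW x).2
    unfold ff
    constructor <;> linarith [cl_nonneg 3 x, cl_nonneg 6 x, cl_le 3 x, cl_le 6 x]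
  refine mem_range_of_exists_le_of_exists_ge hc ⟨(v - 1 / η - 1) / η, (hb _).2.trans ?_⟩
    ⟨(v + 1 / η + 1) / η, le_trans ?_ (hb _).1⟩
  · rw [mul_div_cancel₀ _ h.ne']
    linarith
  · rw [mul_div_cancel₀ _ h.ne']
    linarith

/-- The lower boundary of the inverted square. -/
def Bd (v : ℝ) : ℝ := max |v| (2 - |v|)

/-- From the half plane to the square. -/
def Jm (v η : ℝ) : ℝ × ℝ :=
  ((η + Bd v + v) / 2 / ((η + Bd v + |v|) / 2) ^ 2,
    1 - (η + Bd v - v) / 2 / ((η + Bd v + |v|) / 2) ^ 2)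

/-- The horizontal coordinate on the square. -/
def Jv (q : ℝ × ℝ) : ℝ := (q.1 - (1 - q.2)) / max q.1 (1 - q.2) ^ 2

/-- The vertical coordinate on the square. -/
def Je (q : ℝ × ℝ) : ℝ := (q.1 + (1 - q.2)) / max q.1 (1 - q.2) ^ 2 - Bd (Jv q)

theorem Bd_ge (v : ℝ) : |v| ≤ Bd v ∧ 2 - |v| ≤ Bd v := ⟨le_max_left _ _, le_max_right _ _⟩

theorem max_half (r v : ℝ) : max ((r + v) / 2) ((r - v) / 2) = (r + |v|) / 2 := by
  rcases le_total 0 v with h | h
  · rw [abs_of_nonneg h, max_eq_left (by linarith)]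
  · rw [abs_of_nonpos h, max_eq_right (by linarith), sub_eq_add_neg]

theorem J_left {v η : ℝ} (h : 0 ≤ η) : Jv (Jm v η) = v ∧ Je (Jm v η) = η := by
  have h1 : 0 < (η + Bd v + |v|) / 2 := by linarith [(Bd_ge v).2]
  have h2 : max (Jm v η).1 (1 - (Jm v η).2) = 1 / ((η + Bd v + |v|) / 2) := by
    simp only [Jm, sub_sub_cancel]
    rw [max_div_div_right (by positivity), max_half]
    generalize (η + Bd v + |v|) / 2 = M at h1
    field_simp
  have h3 : Jv (Jm v η) = v := by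
    rw [Jv, h2]
    simp only [Jm]
    generalize (η + Bd v + |v|) / 2 = M at h1
    field_simp
    ring
  refine ⟨h3, ?_⟩
  rw [Je, h3, h2]
  simp only [Jm]
  generalize (η + Bd v + |v|) / 2 = M at h1
  field_simp
  ring

theorem J_right {q : ℝ × ℝ} (h : 0 < max q.1 (1 - q.2)) :
    Jm (Jv q) (Je q) = q ∧ (Je q + Bd (Jv q) + |Jv q|) / 2 = 1 / max q.1 (1 - q.2) := by
  have h1 : (Je q + Bd (Jv q) + Jv q) / 2 = q.1 / max q.1 (1 - q.2) ^ 2 := by
    rw [Je, sub_add_cancel, Jv]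
    ring
  have h2 : (Je q + Bd (Jv q) - Jv q) / 2 = (1 - q.2) / max q.1 (1 - q.2) ^ 2 := by
    rw [Je, sub_add_cancel, Jv]
    ring
  have h3 : (Je q + Bd (Jv q) + |Jv q|) / 2 = 1 / max q.1 (1 - q.2) := by
    rw [← max_half, h1, h2, max_div_div_right (by positivity)]
    field_simp
  refine ⟨?_, h3⟩
  rw [Jm, h1, h2, h3]
  ext
  · field_simp
  · field_simp
    ring

/-- The closed unit square without its corners. -/
def Q : Set (ℝ × ℝ) :=
  {q | (0 ≤ q.1 ∧ q.1 ≤ 1 ∧ 0 < q.2 ∧ q.2 < 1) ∨ (0 < q.1 ∧ q.1 < 1 ∧ 0 ≤ q.2 ∧ q.2 ≤ 1)}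

theorem Q_max {q : ℝ × ℝ} (h : q ∈ Q) : 0 < max q.1 (1 - q.2) := by
  rcases h with h | h
  · exact lt_max_of_lt_right (by linarith [h.2.2.2])
  · exact lt_max_of_lt_left h.1

theorem Jm_mem {v η : ℝ} (h : 0 < η) : Jm v η ∈ Q := by
  obtain ⟨h1, h2⟩ := Bd_ge v
  have h3 := le_abs_self v
  have h4 := neg_abs_le v
  have h5 : 1 < (η + Bd v + |v|) / 2 := by linarith
  have h6 : ∀ w, 0 < w → w ≤ (η + Bd v + |v|) / 2 →
      0 < w / ((η + Bd v + |v|) / 2) ^ 2 ∧ w / ((η + Bd v + |v|) / 2) ^ 2 < 1 := fun w h7 h8 =>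
    ⟨by positivity, by rw [div_lt_one (by positivity)]; nlinarith⟩
  obtain ⟨h7, h8⟩ := h6 ((η + Bd v + v) / 2) (by linarith) (by linarith)
  obtain ⟨h9, h10⟩ := h6 ((η + Bd v - v) / 2) (by linarith) (by linarith)
  exact Or.inl ⟨h7.le, h8.le, by simp only [Jm]; linarith, by simp only [Jm]; linarith⟩

theorem Je_pos {q : ℝ × ℝ} (h1 : 0 < q.1) (h2 : q.1 < 1) (h3 : 0 < q.2) (h4 : q.2 < 1) :
    0 < Je q := by
  have h5 : 0 < max q.1 (1 - q.2) := lt_max_of_lt_left h1
  have h6 : max q.1 (1 - q.2) < 1 := max_lt h2 (by linarith)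
  have h7 := (J_right h5).2
  have h8 : 1 < 1 / max q.1 (1 - q.2) := one_lt_one_div h5 h6
  have h9 : |Jv q| < Je q + Bd (Jv q) := by
    rw [Je, sub_add_cancel, Jv, abs_div, abs_of_pos (pow_pos h5 2)]
    exact div_lt_div_of_pos_right (abs_lt.2 ⟨by linarith, by linarith⟩) (pow_pos h5 2)
  rcases max_choice |Jv q| (2 - |Jv q|) with h | h <;> rw [← Bd] at h <;> linarith

theorem J_cont : ContinuousOn Jv Q ∧ ContinuousOn Je Q := by
  have h : ∀ q ∈ Q, max q.1 (1 - q.2) ^ 2 ≠ 0 := fun q hq => (pow_pos (Q_max hq) 2).ne'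
  have h1 : ContinuousOn Jv Q := ContinuousOn.div (by fun_prop) (by fun_prop) h
  have h2 : Continuous Bd := by
    unfold Bd
    fun_prop
  exact ⟨h1, (ContinuousOn.div (by fun_prop) (by fun_prop) h).sub (h2.comp_continuousOn h1)⟩

/-- The closed fundamental domain. -/
def D : Set ℍ := {τ | ∀ z, qd z τ ≤ 0}

/-- The height above the half discs. -/
def eta (τ : ℍ) : ℝ := τ.im ^ 2 - sh τ.re

/-- The homeomorphism from the fundamental domain to the square. -/
def hh (τ : ℍ) : ℝ × ℝ := Jm (ff τ.re (eta τ)) (eta τ)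

theorem qd_re (z : Letter) (τ : ℍ) : qd z τ = 1 - (τ.re - cen z) ^ 2 - τ.im ^ 2 := by
  simp only [qd, Complex.normSq_apply, UpperHalfPlane.coe_re, UpperHalfPlane.coe_im]
  ring

theorem eta_sh (τ : ℍ) : 0 < eta τ + sh τ.re := by
  rw [eta, sub_add_cancel]
  exact pow_pos τ.im_pos 2

theorem mem_D {τ : ℍ} : τ ∈ D ↔ 0 ≤ eta τ := by
  refine ⟨fun h => ?_, fun h z => ?_⟩
  · rcases sh_cases τ.re with h1 | ⟨z, h1⟩
    · linarith [eta_sh τ]
    · have := h z
      rw [qd_re] at this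
      rw [eta]
      linarith
  · rw [qd_re]
    rw [eta] at h
    linarith [le_sh z τ.re]

theorem eta_cont : Continuous eta := by
  unfold eta
  fun_prop

theorem hh_cont : ContinuousOn hh D := fun τ hτ => by
  have h0 := mem_D.1 hτ
  have h1 : ContinuousAt (fun τ : ℍ => ff τ.re (eta τ)) τ :=
    (ff_tendsto (UpperHalfPlane.continuous_re.tendsto τ) (eta_cont.tendsto τ)
      (W_of h0 (eta_sh τ))).1
  have h2 := eta_cont.continuousAt (x := τ)
  have h3 : ((eta τ + Bd (ff τ.re (eta τ)) + |ff τ.re (eta τ)|) / 2) ^ 2 ≠ 0 :=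
    pow_ne_zero 2 (by linarith [(Bd_ge (ff τ.re (eta τ))).2] : (0 : ℝ) < _).ne'
  have h4 : ContinuousAt (fun τ : ℍ => Bd (ff τ.re (eta τ))) τ :=
    h1.abs.max (continuousAt_const.sub h1.abs)
  have h5 := (((h2.add h4).add h1.abs).div_const 2).pow 2
  exact (((((h2.add h4).add h1).div_const 2).div h5 h3).prodMk
    (continuousAt_const.sub ((((h2.add h4).sub h1).div_const 2).div h5 h3))).continuousWithinAt

theorem hh_inj : InjOn hh D := fun τ hτ σ hσ h => by
  have h1 := mem_D.1 hτ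
  have h2 := mem_D.1 hσ
  have h3 : eta τ = eta σ := by
    rw [← (J_left (v := ff τ.re (eta τ)) h1).2, ← hh, h, hh, (J_left h2).2]
  have h4 : ff τ.re (eta τ) = ff σ.re (eta σ) := by
    rw [← (J_left (v := ff τ.re (eta τ)) h1).1, ← hh, h, hh, (J_left h2).1]
  have h5 := W_of h1 (eta_sh τ)
  have h6 := W_of h2 (eta_sh σ)
  have h7 := eta_sh σ
  rw [← h3] at h4 h6 h7
  have h8 : τ.re = σ.re := by
    rcases lt_trichotomy τ.re σ.re with h9 | h9 | h9
    · exact absurd h4 (ff_lt h1 h5 h6 h9 (Or.inr h7)).ne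
    · exact h9
    · exact absurd h4 (ff_lt h1 h6 h5 h9 (Or.inl h7)).ne'
  refine UpperHalfPlane.ext (Complex.ext h8 ?_)
  rw [eta, eta, h8] at h3
  exact (pow_left_inj₀ τ.im_pos.le σ.im_pos.le two_ne_zero).1 (by linarith)

/-- The points of the sides of the square. -/
def sd (z : Letter) (u : ℝ) : ℝ × ℝ :=
  if z.1 then (u, if z.2 then 1 else 0) else (if z.2 then 1 else 0, u)

/-- The real parts of the points of the four arcs. -/
def ar (z : Letter) (u : ℝ) : ℝ := cen z + (if z.1 = z.2 then 1 - 2 * u else 2 * u - 1)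

theorem sd_mem (z : Letter) {u : ℝ} (h0 : 0 < u) (h1 : u < 1) : sd z u ∈ Q := by
  rcases z with ⟨_ | _, _ | _⟩ <;> simp [sd, Q, h0, h1]

theorem Jm_ar (z : Letter) {u : ℝ} (h0 : 0 < u) (h1 : u < 1) : Jm (ff (ar z u) 0) 0 = sd z u := by
  have h2 : 0 < 1 - u := by linarith
  rw [← (J_right (Q_max (sd_mem z h0 h1))).1]
  have key : Jv (sd z u) = ff (ar z u) 0 ∧ Je (sd z u) = 0 := by
    rcases z with ⟨_ | _, _ | _⟩
    · have e : Jv (0, u) = -(1 / (1 - u)) := by
        simp only [Jv, max_eq_right h2.le]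
        field_simp
        ring
      have e1 : 1 < 1 / (1 - u) := one_lt_one_div h2 (by linarith)
      simp only [sd, ar, cen, Bool.false_eq_true, if_false, if_true, e, ff, Je]
      rw [cl_mid (by linarith) (by linarith), cl_zero (by linarith), cl_zero (by linarith),
        cl_zero (by linarith), Bd, abs_neg, abs_of_pos (by linarith), max_eq_right h2.le,
        max_eq_left (by linarith), show (0 + (1 - 2 * u) - 0 + 1) / 2 + 0 = 1 - u by ring]
      constructor <;> field_simp <;> ring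
    · have e : Jv (1, u) = u := by
        simp only [Jv, max_eq_left (show 1 - u ≤ 1 by linarith)]
        ring
      simp only [sd, ar, cen, Bool.false_eq_true, if_false, if_true, e, ff, Je]
      rw [cl_one (by linarith), cl_one (by linarith), cl_mid (by linarith) (by linarith),
        cl_zero (by linarith), Bd, abs_of_pos h0, max_eq_right (show u ≤ 2 - u by linarith),
        max_eq_left (by linarith)]
      constructor <;> ring
    · have e : Jv (u, 0) = u - 1 := by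
        simp only [Jv, sub_zero, max_eq_right h1.le]
        ring
      simp only [sd, ar, cen, Bool.true_eq_false, Bool.false_eq_true, if_false, if_true, e, ff, Je]
      rw [cl_one (by linarith), cl_mid (by linarith) (by linarith), cl_zero (by linarith),
        cl_zero (by linarith), Bd, abs_of_neg (by linarith),
        max_eq_right (show -(u - 1) ≤ 2 - -(u - 1) by linarith), max_eq_right (by linarith)]
      constructor <;> ring
    · have e : Jv (u, 1) = 1 / u := by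
        simp only [Jv, sub_self, max_eq_left h0.le]
        field_simp
        ring
      have e1 : 1 < 1 / u := one_lt_one_div h0 h1
      simp only [sd, ar, cen, if_true, e, ff, Je]
      rw [cl_one (by linarith), cl_one (by linarith), cl_one (by linarith),
        cl_mid (by linarith) (by linarith), Bd, abs_of_pos (by linarith), max_eq_left (by linarith),
        max_eq_left (by linarith), show 1 - (9 + (1 - 2 * u) - 9 + 1) / 2 + 0 = u by ring]
      constructor <;> field_simp <;> ring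
  rw [key.1, key.2]

/-- The points of the four arcs. -/
def pt (z : Letter) (u : Ioo (0 : ℝ) 1) : ℍ :=
  ⟨⟨ar z u, √(1 - (2 * u - 1) ^ 2)⟩, Real.sqrt_pos.2 (by nlinarith [u.2.1, u.2.2])⟩

theorem pt_qd (z : Letter) (u : Ioo (0 : ℝ) 1) : qd z (pt z u) = 0 := by
  have h : (0 : ℝ) ≤ 1 - (2 * u - 1) ^ 2 := by nlinarith [u.2.1, u.2.2]
  have e1 : (pt z u).re = ar z u := rfl
  have e2 : (pt z u).im = √(1 - (2 * u - 1) ^ 2) := rfl
  rw [qd_re, e1, e2, Real.sq_sqrt h, ar]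
  split_ifs <;> ring

theorem mem_D_of_qd {z : Letter} {τ : ℍ} (h : qd z τ = 0) : τ ∈ D := fun y => by
  by_cases e : z = y
  · rw [← e, h]
  · exact (qd_disj e h.ge).le

theorem eta_of_qd {z : Letter} {τ : ℍ} (h : qd z τ = 0) : eta τ = 0 := by
  refine le_antisymm ?_ (mem_D.1 (mem_D_of_qd h))
  rw [qd_re] at h
  rw [eta]
  linarith [le_sh z τ.re]

theorem hh_pt (z : Letter) (u : Ioo (0 : ℝ) 1) : hh (pt z u) = sd z u := by
  rw [hh, eta_of_qd (pt_qd z u)]
  exact Jm_ar z u.2.1 u.2.2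

theorem exists_pt {z : Letter} {τ : ℍ} (h : qd z τ = 0) : ∃ u, τ = pt z u := by
  have h1 := h
  rw [qd_re] at h1
  have h2 := pow_pos τ.im_pos 2
  have h3 : τ.re - cen z < 1 := by nlinarith
  have h4 : -1 < τ.re - cen z := by nlinarith
  have key : ∃ u : Ioo (0 : ℝ) 1, ar z u = τ.re := by
    unfold ar
    split_ifs
    · exact ⟨⟨(1 - (τ.re - cen z)) / 2, by linarith, by linarith⟩, by ring⟩
    · exact ⟨⟨(1 + (τ.re - cen z)) / 2, by linarith, by linarith⟩, by ring⟩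
  obtain ⟨u, hu⟩ := key
  have h5 := pt_qd z u
  have e1 : (pt z u).re = τ.re := hu
  rw [qd_re, e1] at h5
  exact ⟨u, UpperHalfPlane.ext (Complex.ext e1.symm
    ((pow_left_inj₀ τ.im_pos.le (pt z u).im_pos.le two_ne_zero).1 (by linarith)))⟩

theorem pt_map (z : Letter) (u : Ioo (0 : ℝ) 1) : rho (el z) • pt (inv z) u = pt z u := by
  apply UpperHalfPlane.ext
  have h := pt_qd (inv z) u
  rw [qd_eq, sub_eq_zero] at h
  rw [rho_el, one_div, Complex.inv_def, ← h]
  apply Complex.ext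
  · rcases z with ⟨_ | _, _ | _⟩ <;> simp [pt, ar, inv] <;> ring
  · simp [pt]

theorem hh_bij : BijOn hh D Q := by
  refine ⟨fun τ hτ => ?_, hh_inj, fun q hq => ?_⟩
  · rcases (mem_D.1 hτ).eq_or_lt with h | h
    · rcases sh_cases τ.re with h1 | ⟨z, h1⟩
      · linarith [eta_sh τ]
      · obtain ⟨u, rfl⟩ := exists_pt (z := z) (τ := τ) (by rw [qd_re]; rw [eta] at h; linarith)
        rw [hh_pt]
        exact sd_mem z u.2.1 u.2.2
    · exact Jm_mem h
  · have side : ∀ (z : Letter) (u : ℝ), 0 < u → u < 1 → sd z u ∈ hh '' D := fun z u h0 h1 =>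
      ⟨pt z ⟨u, h0, h1⟩, mem_D_of_qd (pt_qd _ _), hh_pt _ _⟩
    have int : 0 < q.1 → q.1 < 1 → 0 < q.2 → q.2 < 1 → q ∈ hh '' D := fun h1 h2 h3 h4 => by
      have h5 := Je_pos h1 h2 h3 h4
      obtain ⟨x, hx⟩ := ff_surj h5 (Jv q)
      have h6 : 0 < Je q + sh x := by linarith [sh_nonneg x]
      have h7 : eta ⟨⟨x, √(Je q + sh x)⟩, Real.sqrt_pos.2 h6⟩ = Je q := by
        show √(Je q + sh x) ^ 2 - sh x = Je q
        rw [Real.sq_sqrt h6.le, add_sub_cancel_right]
      refine ⟨_, mem_D.2 (h7.symm ▸ h5.le), ?_⟩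
      rw [hh, h7]
      show Jm (ff x (Je q)) (Je q) = q
      rw [hx, (J_right (Q_max hq)).1]
    obtain ⟨s, t⟩ := q
    rcases hq with ⟨h1, h2, h3, h4⟩ | ⟨h1, h2, h3, h4⟩
    · rcases h1.eq_or_lt with (rfl : 0 = s) | h1
      · exact side (false, false) t h3 h4
      rcases h2.eq_or_lt with (rfl : s = 1) | h2
      · exact side (false, true) t h3 h4
      exact int h1 h2 h3 h4
    · rcases h3.eq_or_lt with (rfl : 0 = t) | h3
      · exact side (true, false) s h1 h2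
      rcases h4.eq_or_lt with (rfl : t = 1) | h4
      · exact side (true, true) s h1 h2
      exact int h1 h2 h3 h4

/-- The inverse homeomorphism. -/
def kk : ℝ × ℝ → ℍ := Function.invFunOn hh D

theorem kk_mem {q : ℝ × ℝ} (h : q ∈ Q) : kk q ∈ D := Function.invFunOn_mem (hh_bij.surjOn h)

theorem hh_kk {q : ℝ × ℝ} (h : q ∈ Q) : hh (kk q) = q := hh_bij.invOn_invFunOn.2 h

theorem kk_hh {τ : ℍ} (h : τ ∈ D) : kk (hh τ) = τ := hh_bij.invOn_invFunOn.1 h

theorem kk_sd (z : Letter) (u : Ioo (0 : ℝ) 1) : kk (sd z u) = pt z u := by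
  rw [← hh_pt, kk_hh (mem_D_of_qd (pt_qd z u))]

theorem kk_cont : ContinuousOn kk Q := by
  have h1 : ∀ q ∈ Q, Jv q = ff (kk q).re (eta (kk q)) ∧ Je q = eta (kk q) := fun q hq => by
    have := J_left (v := ff (kk q).re (eta (kk q))) (mem_D.1 (kk_mem hq))
    rwa [← hh, hh_kk hq] at this
  have h2 : ContinuousOn (fun q => eta (kk q)) Q := J_cont.2.congr fun q hq => (h1 q hq).2.symm
  have h3 : ContinuousOn (fun q => (kk q).re) Q := fun q hq =>
    ff_inv (mem_D.1 (kk_mem hq)) (eta_sh _) (h2 q hq)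
      ((J_cont.1.congr fun q hq => (h1 q hq).1.symm) q hq)
      (eventually_nhdsWithin_of_forall fun q hq =>
        ⟨mem_D.1 (kk_mem hq), W_of (mem_D.1 (kk_mem hq)) (eta_sh _)⟩)
  have h4 : ContinuousOn (fun q => (kk q).im) Q := by
    refine ((h2.add (sh_cont.comp_continuousOn h3)).sqrt).congr fun q _ => ?_
    simp only [eta, Function.comp, Pi.add_apply, sub_add_cancel]
    exact (Real.sqrt_sq (kk q).im_pos.le).symm
  rw [UpperHalfPlane.isEmbedding_coe.continuousOn_iff]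
  refine ((Complex.continuous_ofReal.comp_continuousOn h3).add
    ((Complex.continuous_ofReal.comp_continuousOn h4).mul_const Complex.I)).congr fun q _ => ?_
  exact (Complex.re_add_im _).symm

end

end Pool.Agent.P992.T
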