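import Pool.Agent.P.MP_992ce1_gt.T.Dict

/-! Words, word length and self-intersection numbers on both sides of the dictionary. -/

open scoped MatrixGroups UpperHalfPlane unitInterval
open Set Filter Topology

namespace Pool.Agent.P992.T

noncomputable section

/-- The path `p` lifts to a path from `e` to `g • e`. -/
def Lf (e : ℍ) (g : F) (p : I → S) : Prop := ∃ Γ : Path e (g • e), ∀ t, P (Γ t) = p t

variable {g g' : F} {γ δ : Curve} {e : ℍ} {p : I → S}

theorem Lf.unique (h : Lf e g p) (h' : Lf e g' p) : g = g' := by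
  obtain ⟨Γ, h⟩ := h
  obtain ⟨Γ', h'⟩ := h'
  have := lift_unique Γ.continuous Γ'.continuous (fun t => (h t).trans (h' t).symm) 0
    (Γ.source.trans Γ'.source.symm) 1
  rw [Γ.target, Γ'.target] at this
  exact cancel this

theorem lf_one {u : I → ℝ × ℝ} (hu : Continuous u) (h1 : ∀ t, u t ∈ Q) (h2 : kk (u 0) = e)
    (h3 : kk (u 1) = g • e) (h4 : ∀ t, pr (u t) = p t) : Lf e g p :=
  ⟨⟨⟨fun t => kk (u t), kk_cont.comp_continuous hu h1⟩, h2, h3⟩,
    fun t => Subtype.ext ((P_kk (h1 t)).trans (h4 t))⟩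

theorem el_kk (z : Letter) (r : Ioo (0 : ℝ) 1) : el z • kk (sd (inv z) r) = kk (sd z r) := by
  rw [kk_sd, kk_sd]
  exact pt_map z r

theorem lf_two (z : Letter) (r : Ioo (0 : ℝ) 1) {u v : I → ℝ × ℝ} (hu : Continuous u)
    (hv : Continuous v) (h1 : ∀ t : I, (t : ℝ) ≤ 1 / 2 → u t ∈ Q)
    (h1' : ∀ t : I, 1 / 2 ≤ (t : ℝ) → v t ∈ Q)
    (h0 : ∀ t : I, (t : ℝ) = 1 / 2 → u t = sd z r ∧ v t = sd (inv z) r) (h2 : kk (u 0) = e)
    (h3 : el z • kk (v 1) = g • e) (h4 : ∀ t, pr (u t) = p t) (h4' : ∀ t, pr (v t) = p t) :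
    Lf e g p := by
  refine ⟨⟨⟨fun t => if (t : ℝ) ≤ 1 / 2 then kk (u t) else el z • kk (v t), ?_⟩, ?_, ?_⟩,
    fun t => Subtype.ext ?_⟩
  · refine continuous_if_le continuous_subtype_val continuous_const
      (kk_cont.comp hu.continuousOn h1) ((kk_cont.comp hv.continuousOn h1').const_smul _)
      fun t ht => ?_
    rw [(h0 t ht).1, (h0 t ht).2, el_kk]
  · exact (if_pos (by norm_num)).trans h2
  · exact (if_neg (by norm_num)).trans h3
  · show (P (if (t : ℝ) ≤ 1 / 2 then kk (u t) else el z • kk (v t))).1 = _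
    split_ifs with h
    · rw [P_kk (h1 t h), h4]
    · rw [P_smul, P_kk (h1' t (not_le.1 h).le), h4']

/-- The base point upstairs. -/
def e0 : ℍ := kk (1 / 2, 1 / 2)

/-- The midpoint of the sides. -/
def hf : Ioo (0 : ℝ) 1 := ⟨1 / 2, by norm_num⟩

theorem P_e0 : P e0 = base := Subtype.ext (P_kk (Or.inl (by norm_num)))

theorem coe_sub_half (t : ℝ) : ((t - 1 / 2 : ℝ) : UnitAddCircle) = (1 / 2 + t : ℝ) := by
  rw [← AddCircle.coe_add_period 1]
  congr 1
  ring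

theorem lf_a : Lf e0 a loopA := by
  refine lf_two (false, true) hf (u := fun t => (1 / 2 + t, 1 / 2))
    (v := fun t => (t - 1 / 2, 1 / 2)) (by fun_prop) (by fun_prop)
    (fun t h => Or.inl ⟨by linarith [t.2.1], by linarith, by norm_num, by norm_num⟩)
    (fun t h => Or.inl ⟨by linarith, by linarith [t.2.2], by norm_num, by norm_num⟩)
    (fun t h => by norm_num [h, sd, inv, hf]) (by norm_num [e0]) ?_ (fun t => rfl)
    fun t => Prod.ext (coe_sub_half t) rfl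
  norm_num [e0, el_true, a]

theorem lf_b : Lf e0 b loopB := by
  refine lf_two (true, true) hf (u := fun t => (1 / 2, 1 / 2 + t))
    (v := fun t => (1 / 2, t - 1 / 2)) (by fun_prop) (by fun_prop)
    (fun t h => Or.inr ⟨by norm_num, by norm_num, by linarith [t.2.1], by linarith⟩)
    (fun t h => Or.inr ⟨by norm_num, by norm_num, by linarith, by linarith [t.2.2]⟩)
    (fun t h => by norm_num [h, sd, inv, hf]) (by norm_num [e0]) ?_ (fun t => rfl)
    fun t => Prod.ext rfl (coe_sub_half t)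
  norm_num [e0, el_true, b]

theorem Lf.symm {p : Path base base} (h : Lf e g p) : Lf e g⁻¹ p.symm := by
  obtain ⟨Γ, h⟩ := h
  exact ⟨⟨⟨fun t => g⁻¹ • Γ (σ t), by fun_prop⟩, by simp, by simp⟩,
    fun t => (P_smul _ _).trans (h _)⟩

theorem Lf.trans {p q : Path base base} (h : Lf e g p) (h' : Lf e g' q) :
    Lf e (g * g') (p.trans q) := by
  obtain ⟨Γ, h⟩ := h
  obtain ⟨Γ', h'⟩ := h'
  refine ⟨Γ.trans ⟨⟨fun t => g • Γ' t, by fun_prop⟩, by simp, by simp [mul_smul]⟩, fun t => ?_⟩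
  rw [Path.trans_apply, Path.trans_apply]
  split_ifs
  exacts [h _, (P_smul _ _).trans (h' _)]

/-- The letter of the free group. -/
def Lt.lt : Lt → Letter
  | .a => (false, true)
  | .b => (true, true)
  | .A => (false, false)
  | .B => (true, false)

theorem lt_surj : Function.Surjective Lt.lt := by
  rintro ⟨_ | _, _ | _⟩
  exacts [⟨.A, rfl⟩, ⟨.a, rfl⟩, ⟨.B, rfl⟩, ⟨.b, rfl⟩]

theorem lf_word (w : List Lt) : Lf e0 (FreeGroup.mk (w.map Lt.lt)) (wordPath w) := by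
  induction w with
  | nil => exact ⟨(Path.refl e0).cast rfl (one_smul F e0), fun _ => P_e0⟩
  | cons z w ih =>
    rw [List.map_cons, mk_cons]
    refine Lf.trans ?_ ih
    cases z
    exacts [lf_a, lf_b, el_false false ▸ lf_a.symm, el_false true ▸ lf_b.symm]

theorem toCurve_coe (p : Path base base) (t : I) : toCurve p (t : ℝ) = p t := by
  have h : ∀ s : ℝ, s ∈ Ico (0 : ℝ) (0 + 1) → toCurve p s = p.extend s := fun s hs =>
    AddCircle.liftIco_coe_apply (f := p.extend) hs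
  rcases t.2.2.eq_or_lt with h1 | h1
  · obtain rfl : t = 1 := Subtype.ext h1
    rw [Icc.coe_one, AddCircle.coe_period, ← AddCircle.coe_zero, h 0 (by simp)]
    simp
  · rw [h t ⟨t.2.1, by linarith⟩, p.extend_extends']

theorem Lf.rep {p : Path base base} (h : Lf e0 g p) : Rep g (toCurve p) := by
  obtain ⟨g', Γ, h1, h2, h3⟩ := exists_rep (toCurve p) (e := e0)
    (P_e0.trans (p.source.symm.trans (toCurve_coe p 0).symm))
  have h4 := h1.2 0
  rw [zero_add, h3] at h4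
  have hc := h1.1
  obtain rfl := h.unique ⟨⟨⟨fun t : I => Γ t, by fun_prop⟩, h3, h4⟩,
    fun t => (h2 t).trans (toCurve_coe p t)⟩
  exact ⟨Γ, h1, h2⟩

theorem rep_word (w : List Lt) : Rep (FreeGroup.mk (w.map Lt.lt)) (toCurve (wordPath w)) :=
  (lf_word w).rep

theorem exists_word (g : F) : ∃ w : List Lt, w.map Lt.lt = g.toWord :=
  List.map_surjective_iff.2 lt_surj _

theorem exists_curve (g : F) : ∃ γ, Rep g γ := by
  obtain ⟨w, hw⟩ := exists_word g
  exact ⟨_, by simpa only [hw, FreeGroup.mk_toWord] using rep_word w⟩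

theorem Rep.mem_iff (h : Rep g γ) (h' : Rep g' δ) : δ ∈ cls γ ↔ g' ∈ P992.cls g := by
  rw [h.mem_cls]
  exact ⟨fun ⟨_, h1, h2⟩ => h1.imp (·.trans (h2.isConj h')) (·.trans (h2.isConj h')),
    fun h1 => ⟨g', h1, h'⟩⟩

theorem Rep.wl (h : Rep g γ) : wl (cls γ) = P992.wl (P992.cls g) := by
  have h1 : ∀ n ∈ FreeGroup.norm '' P992.cls g,
      n ∈ {n | ∃ w : List Lt, w.length = n ∧ toCurve (wordPath w) ∈ cls γ} := by
    rintro _ ⟨k, hk, rfl⟩
    obtain ⟨w, hw⟩ := exists_word k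
    refine ⟨w, by rw [← List.length_map Lt.lt, hw, FreeGroup.norm], ?_⟩
    rwa [h.mem_iff (rep_word w), hw, FreeGroup.mk_toWord]
  have h2 : (FreeGroup.norm '' P992.cls g).Nonempty := ⟨_, g, Or.inl (IsConj.refl g), rfl⟩
  refine le_antisymm (Nat.sInf_le (h1 _ (Nat.sInf_mem h2))) ?_
  obtain ⟨w, h3, h4⟩ := Nat.sInf_mem (h2.mono h1)
  refine (Nat.sInf_le (mem_image_of_mem FreeGroup.norm ((h.mem_iff (rep_word w)).1 h4))).trans
    (FreeGroup.norm_mk_le.trans ?_)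
  rw [List.length_map]
  exact h3.le

theorem dbl_eq {Γ : ℝ → ℍ} (h : ∀ t : ℝ, P (Γ t) = γ t) : dbl γ = P992.dbl Γ := by
  ext p
  simp only [dbl, P992.dbl, mem_ofPred_eq, ← h, P_eq, smul_def, eq_comm]

theorem dbl_neg (γ : Curve) : (dbl (pw (-1) γ)).encard ≤ (dbl γ).encard := by
  have h : ∀ t : ℝ, pw (-1) γ t = γ (1 - t : ℝ) := fun t => by
    rw [sub_eq_neg_add, AddCircle.coe_add_period, AddCircle.coe_neg]
    exact congrArg γ (neg_one_zsmul _)
  refine encard_le_encard_of_injOn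
    (f := fun p => if p.1 = 0 then (0, 1 - p.2) else (1 - p.2, 1 - p.1)) ?_ ?_
  · rintro ⟨s, t⟩ ⟨h1, h2, h3, h4⟩
    simp only [h] at h1 h2 h3 h4 ⊢
    split_ifs with h5
    · refine ⟨le_rfl, by linarith, by linarith, ?_⟩
      rw [← h4, h5, sub_zero, AddCircle.coe_period, AddCircle.coe_zero]
    · exact ⟨by linarith, by linarith, by linarith [h1.lt_of_ne' h5], h4.symm⟩
  · rintro ⟨s, t⟩ ⟨h1, h2, h3, -⟩ ⟨s', t'⟩ ⟨h4, h5, h6, -⟩ h7
    simp only at h1 h2 h3 h4 h5 h6 h7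
    split_ifs at h7 <;> rw [Prod.mk.injEq] at h7 ⊢ <;> constructor <;> linarith [h7.1, h7.2]

theorem Rep.SI (h : Rep g γ) : SI γ = P992.SI g := by
  have h1 : ∀ δ, Rep g δ → P992.SI g ≤ (dbl δ).encard := by
    rintro δ ⟨Γ, h1, h2⟩
    rw [dbl_eq h2]
    exact iInf_le_of_le ⟨Γ, h1⟩ le_rfl
  refine le_antisymm (le_iInf fun Γ => ?_) (le_iInf₂ fun δ hδ => ?_)
  · obtain ⟨δ, hδ⟩ := descend Γ.2
    rw [← dbl_eq hδ]
    exact iInf₂_le δ (h.mem_cls.2 ⟨g, Or.inl (IsConj.refl g), Γ.1, Γ.2, hδ⟩)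
  · obtain ⟨g', h2 | h2, h3⟩ := h.mem_cls.1 hδ
    · exact h1 δ (h3.conj h2.symm)
    · have := (h3.conj h2.symm).pw (-1)
      rw [zpow_neg_one, inv_inv] at this
      exact (h1 _ this).trans (dbl_neg δ)

theorem Rep.nonPower (h : Rep g γ) : NonPower γ ↔ P992.NonPower g := by
  refine ⟨fun h1 k n hn e => ?_, fun h1 δ n hn h2 => ?_⟩
  · obtain ⟨δ, hδ⟩ := exists_curve k
    refine h1 δ n hn ((h.mem_iff (hδ.pw n)).2 (Or.inl ?_))
    rw [zpow_natCast, e]
  · obtain ⟨k, hk⟩ := rep_exists δ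
    rw [h.mem_iff (hk.pw n), zpow_natCast] at h2
    rcases h2 with h2 | h2 <;> obtain ⟨c, hc⟩ := isConj_iff.1 h2.symm
    · exact h1 (c * k * c⁻¹) n hn (by rw [conj_pow, hc])
    · exact h1 (c * k * c⁻¹)⁻¹ n hn (by rw [inv_pow, conj_pow, hc, inv_inv])

end

end Pool.Agent.P992.T
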